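import Pool.Agent.R464.GB.Defs

/-!
# GB-A1: operators are small on earlier blocks
-/

set_option autoImplicit false

open Filter Topology Set

namespace Pool.Agent.R464.GB

open Pool.Agent.R464.GI

namespace A1

theorem sum_val {I : Idl} (F : Finset ℕ) (f : ℕ → X I) (n : ℕ) :
    (∑ k ∈ F, f k).1 n = ∑ k ∈ F, (f k).1 n := by
  classical
  induction F using Finset.induction_on with
  | empty => simp [zero_val]
  | insert a F ha ih => rw [Finset.sum_insert ha, Finset.sum_insert ha, add_val, ih]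

theorem sum_abs_le {I J : Idl} (T : X I →L[ℝ] X J) (F : Finset ℕ) (x : ℕ → X I) (C : ℝ)
    (hC : 0 ≤ C) (h : ∀ p, ∑ k ∈ F, |(x k).1 p| ≤ C) (p : ℕ) :
    ∑ k ∈ F, |(T (x k)).1 p| ≤ ‖T‖ * C := by
  classical
  obtain ⟨s, hs⟩ : ∃ s : ℕ → ℝ, ∀ k, s k = if 0 ≤ (T (x k)).1 p then 1 else -1 :=
    ⟨_, fun _ => rfl⟩
  have hs1 : ∀ k, |s k| = 1 := by
    intro k
    rw [hs]
    split_ifs <;> simp
  obtain ⟨y, hy⟩ : ∃ y : X I, y = ∑ k ∈ F, s k • x k := ⟨_, rfl⟩
  have hyn : ‖y‖ ≤ C := by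
    refine norm_le_of y C hC (fun n => ?_)
    rw [hy, sum_val]
    refine (Finset.abs_sum_le_sum_abs _ _).trans ((Finset.sum_le_sum fun k _ => ?_).trans (h n))
    rw [smul_val, abs_mul, hs1, one_mul]
  have hTy : (T y).1 p = ∑ k ∈ F, |(T (x k)).1 p| := by
    rw [hy, map_sum, sum_val]
    refine Finset.sum_congr rfl (fun k _ => ?_)
    rw [map_smul, smul_val, hs]
    split_ifs with h0
    · rw [one_mul, abs_of_nonneg h0]
    · rw [abs_of_neg (not_le.1 h0)]; ring
  calc ∑ k ∈ F, |(T (x k)).1 p| = (T y).1 p := hTy.symm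
    _ ≤ |(T y).1 p| := le_abs_self _
    _ ≤ ‖T y‖ := abs_le_norm _ _
    _ ≤ ‖T‖ * ‖y‖ := T.le_opNorm y
    _ ≤ ‖T‖ * C := mul_le_mul_of_nonneg_left hyn (norm_nonneg _)

theorem exists_ind {I : Idl} (A : Set ℕ) (hA : A ∈ I.1) : ∃ y : X I, ∀ p, y.1 p = ind A p := by
  refine exists_supp A hA (ind A) 1 (fun n => ?_) (fun n hn => ?_)
  · unfold ind
    by_cases h : n ∈ A
    · simp [h]
    · simp [h]
  · simp [ind, hn]

theorem ind_mem {A : Set ℕ} {p : ℕ} (h : p ∈ A) : ind A p = 1 := by simp [ind, h]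
theorem ind_not {A : Set ℕ} {p : ℕ} (h : p ∉ A) : ind A p = 0 := by simp [ind, h]

/-- the unit vectors are summable for operators -/
theorem unit_sum {I J : Idl} (T : X I →L[ℝ] X J) (e : ℕ → X I)
    (he : ∀ q p, (e q).1 p = ind {q} p) (F : Finset ℕ) (p : ℕ) :
    ∑ q ∈ F, |(T (e q)).1 p| ≤ ‖T‖ := by
  have := sum_abs_le T F e 1 zero_le_one (fun p => ?_) p
  · simpa using this
  · have h1 : ∀ k ∈ F, |(e k).1 p| = if p = k then 1 else 0 := by
      intro k _
      rw [he]
      by_cases h : p = k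
      · rw [if_pos h, ind_mem (by simp [h]), abs_one]
      · rw [if_neg h, ind_not (by simpa using h), abs_zero]
    rw [Finset.sum_congr rfl h1, Finset.sum_ite_eq]
    split_ifs <;> norm_num

/-- the difference of the indicator functions of a finite set and a subset -/
theorem diff_le {I J : Idl} (T : X I →L[ℝ] X J) (e : ℕ → X I)
    (he : ∀ q p, (e q).1 p = ind {q} p) (D G : Finset ℕ) (hG : G ⊆ D) (d x : X I)
    (hd : ∀ p, d.1 p = ind (D : Set ℕ) p) (hx : ∀ p, x.1 p = ind (G : Set ℕ) p) (p : ℕ) :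
    |(T d).1 p - (T x).1 p| ≤ ∑ q ∈ D \ G, |(T (e q)).1 p| := by
  classical
  have h1 : d - x = ∑ q ∈ D \ G, e q := by
    refine X.ext (fun n => ?_)
    rw [sub_val, sum_val, hd, hx]
    have h2 : ∀ q ∈ D \ G, (e q).1 n = if n = q then 1 else 0 := by
      intro q _
      rw [he]
      by_cases h : n = q
      · rw [if_pos h, ind_mem (by simp [h])]
      · rw [if_neg h, ind_not (by simpa using h)]
    rw [Finset.sum_congr rfl h2, Finset.sum_ite_eq]
    by_cases hnD : n ∈ D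
    · by_cases hnG : n ∈ G
      · rw [ind_mem (by simpa using hnD), ind_mem (by simpa using hnG),
          if_neg (by simp [hnG])]
        ring
      · rw [ind_mem (by simpa using hnD), ind_not (by simpa using hnG),
          if_pos (by simp [hnG, hnD])]
        ring
    · have hnG : n ∉ G := fun h => hnD (hG h)
      rw [ind_not (by simpa using hnD), ind_not (by simpa using hnG), if_neg (by simp [hnD])]
      ring
  have h3 : (T d).1 p - (T x).1 p = ∑ q ∈ D \ G, (T (e q)).1 p := by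
    rw [← sub_val, ← map_sub, h1, map_sum, sum_val]
  rw [h3]
  exact Finset.abs_sum_le_sum_abs _ _

end A1

open A1

theorem a1Stm (hC : CovStm) (hN : NosStm) : A1Stm := by
  classical
  intro b S S' hS hS' T d hd c δ hc hδ
  -- the unit vectors
  have hfin : ∀ A : Set ℕ, A.Finite → A ∈ (jdl b S hS).1 := fun A hA => (jdl b S hS).2.fin A hA
  choose e he using fun q : ℕ => exists_ind (I := jdl b S hS) {q} (hfin _ (Set.finite_singleton q))
  -- earlier blocks
  obtain ⟨P, hP⟩ : ∃ P : ℕ → Finset ℕ, ∀ n, P n = (Finset.range n).biUnion b.D := ⟨_, fun _ => rfl⟩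
  obtain ⟨μ, hμ⟩ : ∃ μ : ℕ → ℕ → ℝ, ∀ n q, μ n q = ∑ p ∈ P n, |(T (e q)).1 p| := ⟨_, fun _ _ => rfl⟩
  have hμ0 : ∀ n q, 0 ≤ μ n q := by
    intro n q
    rw [hμ]
    exact Finset.sum_nonneg fun _ _ => abs_nonneg _
  choose I hI1 hI2 using fun n : ℕ => hC b n (b.t n) (μ n) (hμ0 n)
  obtain ⟨G, hG⟩ : ∃ G : ℕ → Finset ℕ,
      ∀ n, G n = (b.D n).filter (fun q => ∃ i ∈ I n, b.inc i q = true) := ⟨_, fun _ => rfl⟩
  have hGD : ∀ n, G n ⊆ b.D n := by
    intro n
    rw [hG]
    exact Finset.filter_subset _ _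
  choose x hx using fun n : ℕ =>
    exists_ind (I := jdl b S hS) (G n : Set ℕ) (hfin _ (G n).finite_toSet)
  -- the difference is small
  have hdiff : ∀ n, ∀ p ∈ P n, |(T (d n)).1 p - (T (x n)).1 p| ≤ ‖T‖ / (n + 1) := by
    intro n p hp
    refine (diff_le T e he (b.D n) (G n) (hGD n) (d n) (x n) (hd n) (hx n) p).trans ?_
    have h1 : ∑ q ∈ b.D n \ G n, |(T (e q)).1 p| ≤
        ∑ q ∈ (b.D n).filter (fun q => ∀ i ∈ I n, b.inc i q = false), μ n q := by
      have hsub : b.D n \ G n = (b.D n).filter (fun q => ∀ i ∈ I n, b.inc i q = false) := by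
        ext q
        rw [Finset.mem_sdiff, hG, Finset.mem_filter, Finset.mem_filter]
        constructor
        · rintro ⟨h1, h2⟩
          refine ⟨h1, fun i hi => ?_⟩
          by_contra hcon
          exact h2 ⟨h1, i, hi, by simpa using hcon⟩
        · rintro ⟨h1, h2⟩
          refine ⟨h1, ?_⟩
          rintro ⟨-, i, hi, h3⟩
          rw [h2 i hi] at h3
          exact absurd h3 (by simp)
      rw [hsub]
      refine Finset.sum_le_sum fun q _ => ?_
      rw [hμ]
      exact Finset.single_le_sum (f := fun p => |(T (e q)).1 p|) (fun _ _ => abs_nonneg _) hp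
    refine h1.trans ((hI2 n).trans ?_)
    have h2 : ∑ q ∈ b.D n, μ n q ≤ ((P n).card : ℝ) * ‖T‖ := by
      have : ∑ q ∈ b.D n, μ n q = ∑ p ∈ P n, ∑ q ∈ b.D n, |(T (e q)).1 p| := by
        rw [Finset.sum_comm]
        exact Finset.sum_congr rfl fun q _ => hμ n q
      rw [this]
      refine (Finset.sum_le_sum fun p _ => unit_sum T e he (b.D n) p).trans ?_
      rw [Finset.sum_const, nsmul_eq_mul]
    have h3 : ((P n).card : ℝ) ≤ ∑ m ∈ Finset.range n, ((b.D m).card : ℝ) := by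
      rw [hP]
      exact_mod_cast Finset.card_biUnion_le
    have h4 : ((n : ℝ) + 1) * (1 + ∑ m ∈ Finset.range n, ((b.D m).card : ℝ)) ≤ 2 ^ b.t n := by
      exact_mod_cast b.growth2 n
    have h5 : (0 : ℝ) < 2 ^ b.t n := by positivity
    have h6 : (0 : ℝ) < (n : ℝ) + 1 := by positivity
    rw [le_div_iff₀ h6]
    have h7 : ((1 : ℝ) / 2) ^ b.t n = 1 / 2 ^ b.t n := by rw [div_pow, one_pow]
    rw [h7]
    have h8 : (1 / (2 : ℝ) ^ b.t n) * (∑ q ∈ b.D n, μ n q) * ((n : ℝ) + 1) =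
        ((n : ℝ) + 1) * (∑ q ∈ b.D n, μ n q) / 2 ^ b.t n := by ring
    rw [h8, div_le_iff₀ h5]
    have h9 : ((n : ℝ) + 1) * (∑ q ∈ b.D n, μ n q) ≤ ((n : ℝ) + 1) * (((P n).card : ℝ) * ‖T‖) :=
      mul_le_mul_of_nonneg_left h2 h6.le
    refine h9.trans ?_
    have h10 : ((n : ℝ) + 1) * (P n).card ≤ 2 ^ b.t n := by nlinarith
    calc ((n : ℝ) + 1) * (((P n).card : ℝ) * ‖T‖) = (((n : ℝ) + 1) * (P n).card) * ‖T‖ := by ring
      _ ≤ 2 ^ b.t n * ‖T‖ := mul_le_mul_of_nonneg_right h10 (norm_nonneg _)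
      _ = ‖T‖ * 2 ^ b.t n := mul_comm _ _
  -- at most one block contains a given point
  have huniq : ∀ n n' p, p ∈ b.D n → p ∈ b.D n' → n = n' := by
    intro n n' p h h'
    by_contra hne
    exact Finset.disjoint_left.1 (b.disj n n' hne) h h'
  have hsum : ∀ (F : Finset ℕ) (p : ℕ), ∑ k ∈ F, |(x k).1 p| ≤ 1 := by
    intro F p
    by_cases hp : ∃ n, p ∈ b.D n
    · obtain ⟨n, hn⟩ := hp
      have h1 : ∀ k ∈ F, |(x k).1 p| ≤ if k = n then 1 else 0 := by
        intro k _
        rw [hx]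
        by_cases hk : k = n
        · rw [if_pos hk]
          by_cases h : p ∈ (G k : Set ℕ)
          · rw [ind_mem h, abs_one]
          · rw [ind_not h, abs_zero]; norm_num
        · rw [if_neg hk, ind_not, abs_zero]
          intro h
          exact hk (huniq k n p (hGD k (by simpa using h)) hn)
      refine (Finset.sum_le_sum h1).trans ?_
      rw [Finset.sum_ite_eq']
      split_ifs <;> norm_num
    · push Not at hp
      rw [Finset.sum_eq_zero]
      · norm_num
      · intro k _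
        rw [hx, ind_not, abs_zero]
        intro h
        exact hp k (hGD k (by simpa using h))
  by_contra hcon
  push Not at hcon
  -- bad pairs
  obtain ⟨N₁, hN₁⟩ : ∃ N₁ : ℕ, ∀ n, N₁ ≤ n → ‖T‖ / ((n : ℝ) + 1) ≤ c / 2 := by
    obtain ⟨N₁, hN₁⟩ := exists_nat_ge (‖T‖ / (c / 2))
    refine ⟨N₁, fun n hn => ?_⟩
    have h1 : (0 : ℝ) < (n : ℝ) + 1 := by positivity
    rw [div_le_iff₀ h1]
    rw [div_le_iff₀ (by positivity)] at hN₁
    have h2 : (N₁ : ℝ) ≤ n := by exact_mod_cast hn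
    nlinarith
  have hbad : ∀ N m₀ : ℕ, ∃ n m : ℕ, N ≤ n ∧ m₀ < m ∧ m ∈ S' ∧
      ¬ Cv b m {p | c / 2 ≤ |(T (x n)).1 p|} (δ * b.r m) := by
    intro N m₀
    -- eventually small on the first blocks
    have hsm : ∀ p : ℕ, ∀ᶠ n in atTop, |(T (x n)).1 p| < c / 2 := by
      intro p
      have hs : Summable (fun n => |(T (x n)).1 p|) := by
        refine summable_of_sum_le (c := ‖T‖ * 1) (fun n => abs_nonneg _) (fun F => ?_)
        exact sum_abs_le T F x 1 zero_le_one (fun p => hsum F p) p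
      exact hs.tendsto_atTop_zero.eventually_lt_const (by positivity)
    have hsm2 : ∀ᶠ n in atTop, ∀ p ∈ P (m₀ + 1), |(T (x n)).1 p| < c / 2 :=
      (Finset.eventually_all _).2 fun p _ => hsm p
    obtain ⟨N₂, hN₂⟩ := eventually_atTop.1 hsm2
    obtain ⟨n, hn, m, hmn, hmS, hCv⟩ := hcon (max N (max N₁ N₂))
    have hn1 : N ≤ n := (le_max_left _ _).trans hn
    have hn2 : N₁ ≤ n := ((le_max_left _ _).trans (le_max_right _ _)).trans hn
    have hn3 : N₂ ≤ n := ((le_max_right _ _).trans (le_max_right _ _)).trans hn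
    have hCv2 : ¬ Cv b m {p | c / 2 ≤ |(T (x n)).1 p|} (δ * b.r m) := by
      intro h
      refine hCv (h.mono ?_ le_rfl)
      intro p hp hcp
      have hpP : p ∈ P n := by
        rw [hP, Finset.mem_biUnion]
        exact ⟨m, Finset.mem_range.2 hmn, hp⟩
      have h1 := hdiff n p hpP
      have h2 := hN₁ n hn2
      have h3 : c ≤ |(T (d n)).1 p| := hcp
      have h4 : |(T (d n)).1 p| - |(T (x n)).1 p| ≤ |(T (d n)).1 p - (T (x n)).1 p| :=
        abs_sub_abs_le_abs_sub _ _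
      show c / 2 ≤ |(T (x n)).1 p|
      linarith
    refine ⟨n, m, hn1, ?_, hmS, hCv2⟩
    by_contra hle
    have hle' : m ≤ m₀ := not_lt.1 hle
    refine hCv2 (Cv.empty (by positivity) ?_)
    intro p hp hpc
    have hpP : p ∈ P (m₀ + 1) := by
      rw [hP, Finset.mem_biUnion]
      exact ⟨m, Finset.mem_range.2 (by omega), hp⟩
    have h1 := hN₂ n hn3 p hpP
    have h2 : c / 2 ≤ |(T (x n)).1 p| := hpc
    linarith
  choose fn fm hf1 hf2 hf3 hf4 using hbad
  -- the sequence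
  obtain ⟨s, hs0, hs1⟩ : ∃ s : ℕ → ℕ × ℕ, s 0 = (fn 0 0, fm 0 0) ∧
      ∀ k, s (k + 1) = (fn ((s k).1 + 1) (s k).2, fm ((s k).1 + 1) (s k).2) :=
    ⟨fun k => Nat.rec (fn 0 0, fm 0 0) (fun _ q => (fn (q.1 + 1) q.2, fm (q.1 + 1) q.2)) k,
      rfl, fun _ => rfl⟩
  have hmono1 : StrictMono (fun k => (s k).1) := by
    refine strictMono_nat_of_lt_succ fun k => ?_
    have := hf1 ((s k).1 + 1) (s k).2
    simp only [hs1]
    omega
  have hmono2 : StrictMono (fun k => (s k).2) := by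
    refine strictMono_nat_of_lt_succ fun k => ?_
    have := hf2 ((s k).1 + 1) (s k).2
    simp only [hs1]
    exact this
  have hmem : ∀ k, (s k).2 ∈ S' ∧
      ¬ Cv b (s k).2 {p | c / 2 ≤ |(T (x (s k).1)).1 p|} (δ * b.r (s k).2) := by
    intro k
    cases k with
    | zero =>
      rw [hs0]
      exact ⟨hf3 _ _, hf4 _ _⟩
    | succ k =>
      rw [hs1]
      exact ⟨hf3 _ _, hf4 _ _⟩
  refine hN b S' hS' (jdl b S hS) T (fun k => x (s k).1) (fun k => (s k).2) (c / 2) δ 1 hmono2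
    (fun k => (hmem k).1) (by positivity) hδ (fun k => (hmem k).2) ?_ ?_
  · intro F p
    have h1 : ∑ k ∈ F, |(x (s k).1).1 p| =
        ∑ n ∈ F.image (fun k => (s k).1), |(x n).1 p| := by
      rw [Finset.sum_image (fun a _ a' _ h => hmono1.injective h)]
    rw [h1]
    exact hsum _ p
  · intro M
    have hA : (⋃ k ∈ M, (G (s k).1 : Set ℕ)) ∈ (jdl b S hS).1 := by
      intro ε hε
      obtain ⟨N, hNN⟩ := exists_nat_ge (1 / ε)
      refine ⟨N, fun n hn _ => ⟨I n, ?_, ?_⟩⟩
      · have h1 : ((I n).card : ℝ) ≤ b.t n := by exact_mod_cast hI1 n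
        have h2 : ((n : ℝ) + 1) * b.t n ≤ b.r n := by exact_mod_cast b.growth1 n
        have h3 : (1 : ℝ) ≤ ε * (n + 1) := by
          rw [div_le_iff₀ hε] at hNN
          have : (N : ℝ) ≤ n := by exact_mod_cast hn
          nlinarith
        have h4 : (0 : ℝ) ≤ b.t n := by positivity
        have h5 : ε * (((n : ℝ) + 1) * b.t n) ≤ ε * b.r n := mul_le_mul_of_nonneg_left h2 hε.le
        have h6 : (b.t n : ℝ) ≤ ε * (((n : ℝ) + 1) * b.t n) := by nlinarith
        linarith
      · intro p hp hpA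
        simp only [Set.mem_iUnion] at hpA
        obtain ⟨k, hk, hpG⟩ := hpA
        have hpG' : p ∈ G (s k).1 := by simpa using hpG
        have heq := huniq n (s k).1 p hp (hGD _ hpG')
        rw [← heq, hG, Finset.mem_filter] at hpG'
        exact hpG'.2
    obtain ⟨y, hy⟩ := exists_ind (I := jdl b S hS) _ hA
    refine ⟨y, fun p => ?_⟩
    rw [hy]
    by_cases hp : p ∈ (⋃ k ∈ M, (G (s k).1 : Set ℕ))
    · rw [ind_mem hp]
      simp only [Set.mem_iUnion] at hp
      obtain ⟨k, hk, hpG⟩ := hp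
      have h1 : M.indicator (fun k => (x (s k).1).1 p) k = 1 := by
        rw [Set.indicator_of_mem hk, hx, ind_mem hpG]
      rw [← h1]
      refine hasSum_single k (fun k' hk' => ?_)
      by_cases hkM : k' ∈ M
      · rw [Set.indicator_of_mem hkM, hx, ind_not]
        intro hpG'
        have := huniq (s k).1 (s k').1 p (hGD _ (by simpa using hpG)) (hGD _ (by simpa using hpG'))
        exact hk' (hmono1.injective this).symm
      · rw [Set.indicator_of_notMem hkM]
    · rw [ind_not hp]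
      have h1 : M.indicator (fun k => (x (s k).1).1 p) = fun _ => 0 := by
        funext k
        by_cases hkM : k ∈ M
        · rw [Set.indicator_of_mem hkM, hx, ind_not]
          intro hpG
          exact hp (Set.mem_biUnion hkM hpG)
        · rw [Set.indicator_of_notMem hkM]
      rw [h1]
      exact hasSum_zero

end Pool.Agent.R464.GB

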