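import Pool.Agent.R464.GB.Defs

/-!
# GB-A2
-/

set_option autoImplicit false

open Filter Topology Set

namespace Pool.Agent.R464.GB

open Pool.Agent.R464.GI

namespace A2

/-- uniform smallness of the tails on a finite set of points -/
theorem tails (g : ℕ → ℕ → ℝ) (K : ℝ) (h : ∀ (F : Finset ℕ) (p : ℕ), ∑ k ∈ F, |g k p| ≤ K)
    (P : Finset ℕ) (ε : ℝ) (hε : 0 < ε) :
    ∃ N, ∀ F : Finset ℕ, (∀ k ∈ F, N ≤ k) → ∀ p ∈ P, ∑ k ∈ F, |g k p| ≤ ε := by
  classical
  have h1 : ∀ p, ∃ N, ∀ F : Finset ℕ, (∀ k ∈ F, N ≤ k) → ∑ k ∈ F, |g k p| ≤ ε := by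
    intro p
    have hs : Summable (fun k => |g k p|) :=
      summable_of_sum_le (fun k => abs_nonneg _) (fun F => h F p)
    rw [summable_iff_vanishing_norm] at hs
    obtain ⟨s, hs⟩ := hs ε hε
    refine ⟨s.sup id + 1, fun F hF => ?_⟩
    have hd : Disjoint F s := by
      rw [Finset.disjoint_left]
      intro k hkF hks
      have h2 := hF k hkF
      have h3 : k ≤ s.sup id := Finset.le_sup (f := id) hks
      omega
    exact (le_abs_self _).trans (hs F hd).le
  choose N hN using h1
  refine ⟨P.sup N, fun F hF p hp => hN p F fun k hk => ?_⟩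
  exact (Finset.le_sup hp).trans (hF k hk)

/-- fast increasing sequences in an infinite set -/
theorem seq (A : Set ℕ) (hA : A.Infinite) (N1 : ℕ → ℕ) (N2 : ℕ → ℕ → ℕ) :
    ∃ n : ℕ → ℕ, StrictMono n ∧ (∀ k, n k ∈ A) ∧ (∀ k, N1 k ≤ n k) ∧
      ∀ k, N2 (n k) k ≤ n (k + 1) := by
  have hex : ∀ N, ∃ a ∈ A, N < a := fun N => hA.exists_gt N
  choose a haA ha using hex
  let n : ℕ → ℕ := fun k =>
    Nat.rec (a (N1 0)) (fun k x => a (max x (max (N1 (k + 1)) (N2 x k)))) k
  have hn : ∀ k, n (k + 1) = a (max (n k) (max (N1 (k + 1)) (N2 (n k) k))) := fun k => rfl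
  refine ⟨n, strictMono_nat_of_lt_succ fun k => ?_, fun k => ?_, fun k => ?_, fun k => ?_⟩
  · rw [hn]
    exact (le_max_left _ _).trans_lt (ha _)
  · cases k with
    | zero => exact haA _
    | succ k =>
      rw [hn]
      exact haA _
  · cases k with
    | zero => exact (ha _).le
    | succ k =>
      rw [hn]
      exact ((le_max_left _ _).trans (le_max_right _ _)).trans (ha _).le
  · rw [hn]
    exact ((le_max_right _ _).trans (le_max_right _ _)).trans (ha _).le

end A2

theorem a2Stm (hN : NosStm) : A2Stm := by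
  classical
  intro b S S' hS hS' R u v K hK hsm hv1 hv2 A hA hAS hcon
  have hvu : ∀ n p, |(v n).1 p| ≤ |(u n).1 p| := by
    intro n p
    by_cases hp : p ∈ W b n
    · rw [hv2 n p hp, abs_zero]
      exact abs_nonneg _
    · rw [hv1 n p hp]
  -- choice of the indices
  have e1 : ∀ k : ℕ, ∃ N, ∀ n, N ≤ n → ∀ m, m < n → m ∈ S' →
      Cv b m {p | 1 / ((k : ℝ) + 1) ≤ |(u n).1 p|} (1 / ((k : ℝ) + 1) * b.r m) := fun k =>
    hsm _ _ (by positivity) (by positivity)
  choose N1 hN1 using e1
  have e2 : ∀ n k : ℕ, ∃ N, ∀ F : Finset ℕ, (∀ j ∈ F, N ≤ j) →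
      ∀ p ∈ (Finset.range (n + 1)).biUnion b.D, ∑ j ∈ F, |(u j).1 p| ≤ 1 / ((k : ℝ) + 1) :=
    fun n k => A2.tails (fun k p => (u k).1 p) K hK _ _ (by positivity)
  choose N2 hN2 using e2
  obtain ⟨n, hmono, hnA, hn1, hn2⟩ := A2.seq A hA N1 N2
  -- sums over the subsequence
  have hsub : ∀ (F : Finset ℕ) (p : ℕ), ∑ k ∈ F, |(u (n k)).1 p| ≤ K := by
    intro F p
    have := hK (F.image n) p
    rwa [Finset.sum_image (fun x _ y _ h => hmono.injective h)] at this
  refine hN b S hS (jdl b S' hS') R (fun k => v (n k)) n (1 / 2) (1 / 4) K hmono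
    (fun k => (hAS _ (hnA k)).1) (by norm_num) (by norm_num) (fun k hk => ?_)
    (fun F p => ?_) (fun M => ?_)
  · exact hcon (n k) (hnA k) (hk.mono (fun p _ h => h) (by ring_nf; rfl))
  · exact (Finset.sum_le_sum fun k _ => hvu (n k) p).trans (hsub F p)
  · -- the sums
    have hle : ∀ k p, |M.indicator (fun k => (v (n k)).1 p) k| ≤ |(u (n k)).1 p| := by
      intro k p
      by_cases hk : k ∈ M
      · rw [Set.indicator_of_mem hk]
        exact hvu _ _
      · rw [Set.indicator_of_notMem hk, abs_zero]
        exact abs_nonneg _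
    have hsumm : ∀ p, Summable (M.indicator (fun k => (v (n k)).1 p)) := by
      intro p
      have h1 : Summable (fun k => |(u (n k)).1 p|) :=
        summable_of_sum_le (fun k => abs_nonneg _) (fun F => hsub F p)
      exact Summable.of_norm_bounded h1 fun k => hle k p
    have hb : ∀ (p : ℕ) (B : ℝ),
        (∀ F : Finset ℕ, ∑ k ∈ F, |M.indicator (fun k => (v (n k)).1 p) k| ≤ B) →
        |∑' k, M.indicator (fun k => (v (n k)).1 p) k| ≤ B := by
      intro p B hB
      have ht : Tendsto (fun F : Finset ℕ => |∑ k ∈ F, M.indicator (fun k => (v (n k)).1 p) k|)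
          atTop (𝓝 |∑' k, M.indicator (fun k => (v (n k)).1 p) k|) :=
        Filter.Tendsto.abs (hsumm p).hasSum
      exact le_of_tendsto' ht fun F => (Finset.abs_sum_le_sum_abs _ _).trans (hB F)
    obtain ⟨y, hy⟩ := exists_X (jdl b S' hS')
      (fun p => ∑' k, M.indicator (fun k => (v (n k)).1 p) k) K
      (fun p => hb p K fun F => (Finset.sum_le_sum fun k _ => hle k p).trans (hsub F p))
      (by
        intro ε hε ε' hε'
        obtain ⟨k0, hk0⟩ := exists_nat_gt (max (2 / ε) (1 / ε'))
        refine ⟨n k0 + 1, fun m hm hmS => ?_⟩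
        have hex : ∃ k, m ≤ n k := ⟨m, hmono.id_le m⟩
        obtain ⟨k, hk, hkmin⟩ : ∃ k, m ≤ n k ∧ ∀ j, j < k → n j < m := by
          refine ⟨Nat.find hex, Nat.find_spec hex, fun j hj => ?_⟩
          have := Nat.find_min hex hj
          omega
        have hne : n k ≠ m := by
          rintro rfl
          exact (hAS _ (hnA k)).2 hmS
        have hlt : m < n k := by omega
        have hkk0 : k0 < k := by
          by_contra hcon'
          have := hmono.monotone (show k ≤ k0 by omega)
          omega
        have hkr : (k0 : ℝ) < (k : ℝ) := by exact_mod_cast hkk0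
        have hε1 : 2 / ((k : ℝ) + 1) ≤ ε := by
          have h1 : 2 / ε < (k : ℝ) + 1 := by
            have := (le_max_left (2 / ε) (1 / ε')).trans_lt hk0
            linarith
          rw [div_lt_iff₀ hε] at h1
          rw [div_le_iff₀ (by positivity)]
          linarith
        have hε2 : 1 / ((k : ℝ) + 1) ≤ ε' := by
          have h1 : 1 / ε' < (k : ℝ) + 1 := by
            have := (le_max_right (2 / ε) (1 / ε')).trans_lt hk0
            linarith
          rw [div_lt_iff₀ hε'] at h1
          rw [div_le_iff₀ (by positivity)]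
          linarith
        have hcv := hN1 k (n k) (hn1 k) m hlt hmS
        refine hcv.mono (fun p hp hpe => ?_) (mul_le_mul_of_nonneg_right hε2 (by positivity))
        have hpe' : ε ≤ |∑' k, M.indicator (fun k => (v (n k)).1 p) k| := hpe
        have hbd : |∑' k, M.indicator (fun k => (v (n k)).1 p) k| ≤
            |(u (n k)).1 p| + 1 / ((k : ℝ) + 1) := by
          refine hb p _ fun F => ?_
          have hz : ∀ j, j < k → |M.indicator (fun k => (v (n k)).1 p) j| = 0 := by
            intro j hj
            have hpW : p ∈ W b (n j) := ⟨m, hkmin j hj, hp⟩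
            by_cases hjM : j ∈ M
            · rw [Set.indicator_of_mem hjM, hv2 _ _ hpW, abs_zero]
            · rw [Set.indicator_of_notMem hjM, abs_zero]
          have hsplit : ∑ j ∈ F, |M.indicator (fun k => (v (n k)).1 p) j| ≤
              |(u (n k)).1 p| + ∑ j ∈ F.filter (fun j => k < j), |(u (n j)).1 p| := by
            have h1 : ∑ j ∈ F, |M.indicator (fun k => (v (n k)).1 p) j| ≤
                ∑ j ∈ insert k (F.filter (fun j => k < j)), |(u (n j)).1 p| := by
              have h2 : ∑ j ∈ F, |M.indicator (fun k => (v (n k)).1 p) j| =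
                  ∑ j ∈ F.filter (fun j => k ≤ j), |M.indicator (fun k => (v (n k)).1 p) j| := by
                rw [Finset.sum_filter]
                refine Finset.sum_congr rfl fun j _ => ?_
                by_cases hj : k ≤ j
                · rw [if_pos hj]
                · rw [if_neg hj, hz j (by omega)]
              rw [h2]
              refine (Finset.sum_le_sum fun j _ => hle j p).trans
                (Finset.sum_le_sum_of_subset_of_nonneg ?_ fun j _ _ => abs_nonneg _)
              intro j hj
              rw [Finset.mem_filter] at hj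
              rcases eq_or_lt_of_le hj.2 with rfl | hj'
              · exact Finset.mem_insert_self _ _
              · exact Finset.mem_insert_of_mem (Finset.mem_filter.2 ⟨hj.1, hj'⟩)
            rwa [Finset.sum_insert (by simp)] at h1
          have htail : ∑ j ∈ F.filter (fun j => k < j), |(u (n j)).1 p| ≤ 1 / ((k : ℝ) + 1) := by
            have h3 := hN2 (n k) k ((F.filter (fun j => k < j)).image n) (by
              intro j hj
              obtain ⟨i, hi, rfl⟩ := Finset.mem_image.1 hj
              have hi' := (Finset.mem_filter.1 hi).2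
              exact (hn2 k).trans (hmono.monotone (by omega))) p (by
              rw [Finset.mem_biUnion]
              exact ⟨m, Finset.mem_range.2 (by omega), hp⟩)
            rwa [Finset.sum_image (fun x _ y _ h => hmono.injective h)] at h3
          linarith
        change 1 / ((k : ℝ) + 1) ≤ |(u (n k)).1 p|
        have : 2 / ((k : ℝ) + 1) = 1 / ((k : ℝ) + 1) + 1 / ((k : ℝ) + 1) := by ring
        linarith)
    exact ⟨y, fun p => by rw [hy p]; exact (hsumm p).hasSum⟩

end Pool.Agent.R464.GB
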