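import Pool.Agent.R464.GB.Defs

/-!
# GB-ADF: almost disjoint families
-/

set_option autoImplicit false

open Filter Topology Set

namespace Pool.Agent.R464.GB

namespace AdfAux

/-- the restriction of a binary sequence -/
def res (x : ℕ → Bool) (n : ℕ) : List Bool := (List.range n).map x

theorem res_length (x : ℕ → Bool) (n : ℕ) : (res x n).length = n := by simp [res]

theorem res_eq {x y : ℕ → Bool} {n m : ℕ} (h : res x n = res y m) :
    n = m ∧ ∀ i < n, x i = y i := by
  have h1 : n = m := by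
    have := congrArg List.length h
    rwa [res_length, res_length] at this
  subst h1
  refine ⟨rfl, fun i hi => ?_⟩
  unfold res at h
  rw [List.map_inj_left] at h
  exact h i (List.mem_range.2 hi)

/-- the members of the almost disjoint family -/
def M (e : ℕ → ℕ) (x : ℕ → Bool) : Set ℕ := Set.range (fun n => e (Encodable.encode (res x n)))

theorem inj_code (e : ℕ → ℕ) (he : Function.Injective e) {x y : ℕ → Bool} {n m : ℕ}
    (h : e (Encodable.encode (res x n)) = e (Encodable.encode (res y m))) :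
    n = m ∧ ∀ i < n, x i = y i :=
  res_eq (Encodable.encode_injective (he h))

theorem infinite_M (e : ℕ → ℕ) (he : Function.Injective e) (x : ℕ → Bool) : (M e x).Infinite :=
  Set.infinite_range_of_injective fun _ _ h => (inj_code e he h).1

theorem finite_inter (e : ℕ → ℕ) (he : Function.Injective e) {x y : ℕ → Bool} (h : x ≠ y) :
    (M e x ∩ M e y).Finite := by
  obtain ⟨k, hk⟩ := Function.ne_iff.1 h
  refine ((Set.finite_Iic k).image (fun n => e (Encodable.encode (res x n)))).subset ?_
  rintro _ ⟨⟨n, rfl⟩, ⟨m, hm⟩⟩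
  refine ⟨n, ?_, rfl⟩
  have := inj_code e he hm.symm
  by_contra hn
  exact hk (this.2 k (not_le.1 hn))

theorem sum_le (g : Set ℕ → ℝ) (hadd : ∀ A B, Disjoint A B → g (A ∪ B) = g A + g B)
    (hfin : ∀ A : Set ℕ, A.Finite → g A = 0) (e : ℕ → ℕ) (he : Function.Injective e) (ε : ℝ)
    (F : Finset (ℕ → Bool)) (hF : ∀ x ∈ F, ε ≤ g (M e x)) :
    F.card * ε ≤ g (⋃ x ∈ F, M e x) := by
  classical
  induction F using Finset.induction_on with
  | empty => simp [hfin ∅ Set.finite_empty]
  | insert a F ha ih =>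
    have ih' := ih fun x hx => hF x (Finset.mem_insert_of_mem hx)
    have haε := hF a (Finset.mem_insert_self _ _)
    rw [Finset.set_biUnion_insert, Finset.card_insert_of_notMem ha]
    set U : Set ℕ := ⋃ x ∈ F, M e x with hU
    have hfinU : (M e a ∩ U).Finite := by
      rw [hU, Set.inter_iUnion₂]
      refine Set.Finite.biUnion F.finite_toSet fun x hx => ?_
      refine finite_inter e he ?_
      rintro rfl
      exact ha hx
    have h1 : g (M e a ∪ U) = g (M e a \ U) + g U := by
      rw [← hadd _ _ Set.disjoint_sdiff_left, Set.sdiff_union_self]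
    have h2 : g (M e a) = g (M e a \ U) + g (M e a ∩ U) := by
      rw [← hadd _ _ (Set.disjoint_left.2 fun p hp hp' => hp.2 hp'.2), Set.sdiff_union_inter]
    rw [hfin _ hfinU] at h2
    rw [h1]
    push_cast
    linarith

theorem finite_ge (C : ℝ) (g : Set ℕ → ℝ) (hadd : ∀ A B, Disjoint A B → g (A ∪ B) = g A + g B)
    (hC : ∀ A, g A ≤ C) (hfin : ∀ A : Set ℕ, A.Finite → g A = 0) (e : ℕ → ℕ)
    (he : Function.Injective e) (ε : ℝ) (hε : 0 < ε) : {x | ε ≤ g (M e x)}.Finite := by
  by_contra hinf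
  have hinf' : {x | ε ≤ g (M e x)}.Infinite := hinf
  obtain ⟨r, hr⟩ := exists_nat_gt (C / ε)
  obtain ⟨F, hF, hFc⟩ := hinf'.exists_subset_card_eq r
  have h1 := sum_le g hadd hfin e he ε F (fun x hx => hF hx)
  rw [hFc] at h1
  have h2 := hC (⋃ x ∈ F, M e x)
  rw [div_lt_iff₀ hε] at hr
  linarith

theorem countable_ne (C : ℝ) (g : Set ℕ → ℝ)
    (hadd : ∀ A B, Disjoint A B → g (A ∪ B) = g A + g B)
    (hC : ∀ A, |g A| ≤ C) (hfin : ∀ A : Set ℕ, A.Finite → g A = 0) (e : ℕ → ℕ)
    (he : Function.Injective e) : {x | g (M e x) ≠ 0}.Countable := by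
  have hsub : {x | g (M e x) ≠ 0} ⊆ ⋃ n : ℕ,
      ({x | (1 : ℝ) / (n + 1) ≤ g (M e x)} ∪ {x | (1 : ℝ) / (n + 1) ≤ -g (M e x)}) := by
    intro x hx
    have hpos : 0 < |g (M e x)| := abs_pos.2 hx
    obtain ⟨n, hn⟩ := exists_nat_one_div_lt hpos
    refine Set.mem_iUnion.2 ⟨n, ?_⟩
    rcases abs_cases (g (M e x)) with ⟨h, _⟩ | ⟨h, _⟩
    · left; rw [h] at hn; exact hn.le
    · right; rw [h] at hn; exact hn.le
  refine Set.Countable.mono hsub (Set.countable_iUnion fun n => ?_)
  refine Set.Countable.union ?_ ?_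
  · exact (finite_ge C g hadd (fun A => (le_abs_self _).trans (hC A)) hfin e he _
      (by positivity)).countable
  · refine (finite_ge C (fun A => -g A) ?_ (fun A => (neg_le_abs _).trans (hC A)) ?_ e he _
      (by positivity)).countable
    · intro A B hAB
      rw [hadd A B hAB]; ring
    · intro A hA
      rw [hfin A hA, neg_zero]

theorem exists_notMem_of_countable (S : Set (ℕ → Bool)) (hS : S.Countable) : ∃ x, x ∉ S := by
  obtain ⟨f, hf⟩ := Set.countable_iff_exists_subset_range.1 hS
  refine ⟨fun n => !(f n n), fun hx => ?_⟩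
  obtain ⟨n, hn⟩ := hf hx
  have := congrFun hn n
  simp at this

end AdfAux

open AdfAux in
theorem adfStm : AdfStm := by
  intro C g hadd hC hfin M₀ hM₀
  let e : ℕ → ℕ := fun n => (hM₀.natEmbedding M₀ n : ℕ)
  have he : Function.Injective e := fun a b h => (hM₀.natEmbedding M₀).injective (Subtype.ext h)
  have hcount : (⋃ p, {x | g p (M e x) ≠ 0}).Countable :=
    Set.countable_iUnion fun p => countable_ne (C p) (g p) (hadd p) (hC p) (hfin p) e he
  obtain ⟨x, hx⟩ := exists_notMem_of_countable _ hcount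
  refine ⟨M e x, ?_, infinite_M e he x, ?_⟩
  · rintro _ ⟨n, rfl⟩
    exact (hM₀.natEmbedding M₀ _).2
  · intro p
    by_contra hp
    exact hx (Set.mem_iUnion.2 ⟨p, hp⟩)

end Pool.Agent.R464.GB
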