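import Pool.Agent.R464.GB.Defs

/-!
# GB-B (helper662, for project GB of helper464)
-/

set_option autoImplicit false

open Filter Topology Set

namespace Pool.Agent.R464.GB

open Pool.Agent.R464.GI

namespace BAux

/-- evaluation at a point -/
noncomputable def ev (I : Idl) (p : ℕ) : X I →ₗ[ℝ] ℝ where
  toFun x := x.1 p
  map_add' x y := add_val x y p
  map_smul' c x := smul_val c x p

theorem le_R {I J : Idl} (R : X J →L[ℝ] X I) (x : X J) (p : ℕ) :
    |(R x).1 p| ≤ ‖R‖ * ‖x‖ :=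
  (abs_le_norm _ p).trans (R.le_opNorm x)

theorem exists_e (J : Idl) : ∃ e : ℕ → X J, ∀ q p, (e q).1 p = if p = q then 1 else 0 := by
  have h : ∀ q : ℕ, ∃ y : X J, ∀ p, y.1 p = if p = q then 1 else 0 := by
    intro q
    refine exists_supp {q} (J.2.fin _ (Set.finite_singleton q)) _ 1 ?_ ?_
    · intro p
      split_ifs <;> simp
    · intro p hp
      rw [if_neg]
      intro h
      exact hp h
  choose e he using h
  exact ⟨e, he⟩

theorem sum_e {J : Idl} {e : ℕ → X J} (he : ∀ q p, (e q).1 p = if p = q then 1 else 0)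
    (Q : Finset ℕ) (c : ℕ → ℝ) (p : ℕ) :
    (∑ q ∈ Q, c q • e q).1 p = if p ∈ Q then c p else 0 := by
  have h1 : (∑ q ∈ Q, c q • e q).1 p = ∑ q ∈ Q, c q * (e q).1 p :=
    map_sum (ev J p) (fun q => c q • e q) Q
  rw [h1]
  simp only [he, mul_ite, mul_one, mul_zero]
  rw [Finset.sum_ite_eq]

theorem R_sum {I J : Idl} (R : X J →L[ℝ] X I) (e : ℕ → X J) (Q : Finset ℕ) (c : ℕ → ℝ) (p : ℕ) :
    (R (∑ q ∈ Q, c q • e q)).1 p = ∑ q ∈ Q, c q * (R (e q)).1 p := by
  rw [map_sum]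
  have h1 : (∑ q ∈ Q, R (c q • e q)).1 p = ∑ q ∈ Q, (R (c q • e q)).1 p :=
    map_sum (ev I p) (fun q => R (c q • e q)) Q
  rw [h1]
  refine Finset.sum_congr rfl fun q _ => ?_
  rw [map_smul, smul_val]

theorem row {I J : Idl} (R : X J →L[ℝ] X I) {e : ℕ → X J}
    (he : ∀ q p, (e q).1 p = if p = q then 1 else 0) (Q : Finset ℕ) (p : ℕ) :
    ∑ q ∈ Q, |(R (e q)).1 p| ≤ ‖R‖ := by
  set c : ℕ → ℝ := fun q => if 0 ≤ (R (e q)).1 p then 1 else -1 with hc
  have h1 : ∀ q, |(R (e q)).1 p| = c q * (R (e q)).1 p := by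
    intro q
    by_cases h : 0 ≤ (R (e q)).1 p
    · simp only [hc, h, if_true, one_mul]
      exact abs_of_nonneg h
    · simp only [hc, h, if_false, neg_mul, one_mul]
      exact abs_of_neg (not_le.1 h)
  rw [Finset.sum_congr rfl fun q _ => h1 q, ← R_sum]
  refine (le_abs_self _).trans ((le_R R _ p).trans ?_)
  have h2 : ‖∑ q ∈ Q, c q • e q‖ ≤ 1 := by
    refine norm_le_of _ 1 zero_le_one fun k => ?_
    rw [sum_e he]
    split_ifs
    · simp only [hc]
      split_ifs <;> simp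
    · simp
  calc ‖R‖ * ‖∑ q ∈ Q, c q • e q‖ ≤ ‖R‖ * 1 := mul_le_mul_of_nonneg_left h2 (norm_nonneg _)
    _ = ‖R‖ := mul_one _

/-- the set of the points which are kept -/
def Qs (b : Blk) (n L : ℕ) (Ic : ℕ → Finset ℕ) (w : ℕ → ℝ) (ε : ℝ) : Set ℕ :=
  {q | (∃ m, n < m ∧ m ≤ L ∧ q ∈ b.D m ∧ ∃ i ∈ Ic m, b.inc i q = true) ∨
    ∃ m, L < m ∧ q ∈ b.D m ∧ ε ≤ |w q|}

theorem blk_unique (b : Blk) {m k q : ℕ} (h1 : q ∈ b.D m) (h2 : q ∈ b.D k) : m = k := by
  by_contra h
  exact Finset.disjoint_left.1 (b.disj m k h) h1 h2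

theorem approx (b : Blk) {I J : Idl} (R : X J →L[ℝ] X I) {e : ℕ → X J}
    (he : ∀ q p, (e q).1 p = if p = q then 1 else 0) (n L : ℕ) (Ic : ℕ → Finset ℕ)
    (hI : ∀ m, ∑ q ∈ (b.D m).filter (fun q => ∀ i ∈ Ic m, b.inc i q = false),
      (∑ p ∈ b.D n, |(R (e q)).1 p|) ≤ (1 / 2) ^ (b.t m) *
        ∑ q ∈ b.D m, ∑ p ∈ b.D n, |(R (e q)).1 p|)
    (w x : X J) (K ε : ℝ) (hK0 : 0 ≤ K) (hε : 0 ≤ ε) (hK : ∀ p, |w.1 p| ≤ K)
    (hw : ∀ p, p ∉ W b n → w.1 p = 0)
    (hx1 : ∀ q, q ∈ Qs b n L Ic w.1 ε → x.1 q = w.1 q)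
    (hx2 : ∀ q, q ∉ Qs b n L Ic w.1 ε → x.1 q = 0) (p : ℕ) (hp : p ∈ b.D n) :
    |(R w).1 p - (R x).1 p| ≤ K * ‖R‖ / (n + 1) + ‖R‖ * ε := by
  classical
  set Fs : Finset ℕ := (Finset.Ioc n L).biUnion fun m =>
    (b.D m).filter (fun q => ∀ i ∈ Ic m, b.inc i q = false) with hFs
  have hmemF : ∀ q, q ∈ Fs ↔ ∃ m, (n < m ∧ m ≤ L) ∧ q ∈ b.D m ∧ ∀ i ∈ Ic m, b.inc i q = false := by
    intro q
    rw [hFs, Finset.mem_biUnion]
    simp only [Finset.mem_Ioc, Finset.mem_filter]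
  set z1 : X J := ∑ q ∈ Fs, w.1 q • e q with hz1
  set z2 : X J := w - x - z1 with hz2
  have hz2v : ∀ q, z2.1 q = w.1 q - x.1 q - (if q ∈ Fs then w.1 q else 0) := by
    intro q
    rw [hz2, sub_val, sub_val, hz1, sum_e he Fs w.1]
  have hz2n : ‖z2‖ ≤ ε := by
    refine norm_le_of _ ε hε fun q => ?_
    rw [hz2v]
    by_cases hQ : q ∈ Qs b n L Ic w.1 ε
    · have hF : q ∉ Fs := by
        intro h
        obtain ⟨m, hm, hqm, hu⟩ := (hmemF q).1 h
        rcases hQ with ⟨k, hk1, hk2, hqk, i, hi, hinc⟩ | ⟨k, hk, hqk, _⟩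
        · have := blk_unique b hqm hqk
          subst this
          rw [hu i hi] at hinc
          exact absurd hinc (by simp)
        · have := blk_unique b hqm hqk
          omega
      rw [hx1 q hQ, if_neg hF]
      simp [hε]
    · rw [hx2 q hQ]
      by_cases hF : q ∈ Fs
      · rw [if_pos hF]
        simp [hε]
      · rw [if_neg hF, sub_zero, sub_zero]
        by_cases hW : q ∈ W b n
        · obtain ⟨m, hm, hqm⟩ := hW
          by_cases hmL : m ≤ L
          · exfalso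
            by_cases hcov : ∃ i ∈ Ic m, b.inc i q = true
            · exact hQ (Or.inl ⟨m, hm, hmL, hqm, hcov⟩)
            · apply hF
              rw [hmemF]
              refine ⟨m, ⟨hm, hmL⟩, hqm, fun i hi => ?_⟩
              by_contra h
              exact hcov ⟨i, hi, by simpa using h⟩
          · by_contra h
            exact hQ (Or.inr ⟨m, not_le.1 hmL, hqm, (not_le.1 h).le⟩)
        · rw [hw q hW, abs_zero]
          exact hε
  have hdec : (R w).1 p - (R x).1 p = (R z1).1 p + (R z2).1 p := by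
    have h1 : R z2 = R w - R x - R z1 := by rw [hz2, map_sub, map_sub]
    rw [h1, sub_val, sub_val]
    ring
  have hb2 : |(R z2).1 p| ≤ ‖R‖ * ε :=
    (le_R R z2 p).trans (mul_le_mul_of_nonneg_left hz2n (norm_nonneg _))
  -- the finite part
  set μ : ℕ → ℝ := fun q => ∑ p ∈ b.D n, |(R (e q)).1 p| with hμ
  have hμ0 : ∀ q, 0 ≤ μ q := fun q => Finset.sum_nonneg fun _ _ => abs_nonneg _
  have hb1 : |(R z1).1 p| ≤ K * ∑ q ∈ Fs, μ q := by
    rw [hz1, R_sum, Finset.mul_sum]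
    refine (Finset.abs_sum_le_sum_abs _ _).trans (Finset.sum_le_sum fun q _ => ?_)
    rw [abs_mul]
    apply mul_le_mul (hK q) _ (abs_nonneg _) hK0
    exact Finset.single_le_sum (f := fun p => |(R (e q)).1 p|) (fun _ _ => abs_nonneg _) hp
  set cc : ℝ := 1 / (((n : ℝ) + 1) * (1 + ((b.D n).card : ℝ))) with hcc
  have hcc0 : 0 < cc := by positivity
  have hdisj : ∀ s : Finset ℕ, Set.PairwiseDisjoint (↑s) b.D := fun s m _ k _ hmk => b.disj m k hmk
  have hb3 : ∑ q ∈ Fs, μ q ≤ cc * ∑ m ∈ Finset.Ioc n L, ∑ q ∈ b.D m, μ q := by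
    have h1 : ∑ q ∈ Fs, μ q = ∑ m ∈ Finset.Ioc n L,
        ∑ q ∈ (b.D m).filter (fun q => ∀ i ∈ Ic m, b.inc i q = false), μ q := by
      rw [hFs]
      apply Finset.sum_biUnion
      intro m _ k _ hmk
      exact Finset.disjoint_filter_filter (b.disj m k hmk)
    rw [h1, Finset.mul_sum]
    refine Finset.sum_le_sum fun m hm => (hI m).trans ?_
    apply mul_le_mul_of_nonneg_right _ (Finset.sum_nonneg fun q _ => hμ0 q)
    have hnm := (Finset.mem_Ioc.1 hm).1
    have h2 := b.growth2 m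
    have h3 : (b.D n).card ≤ ∑ k ∈ Finset.range m, (b.D k).card :=
      Finset.single_le_sum (f := fun k => (b.D k).card) (fun _ _ => Nat.zero_le _)
        (Finset.mem_range.2 hnm)
    have h4 : (n + 1) * (1 + (b.D n).card) ≤ 2 ^ b.t m :=
      le_trans (Nat.mul_le_mul (by omega) (by omega)) h2
    have h5 : ((n : ℝ) + 1) * (1 + ((b.D n).card : ℝ)) ≤ 2 ^ b.t m := by exact_mod_cast h4
    rw [hcc, one_div_pow]
    apply one_div_le_one_div_of_le (by positivity) h5
  have hb4 : ∑ m ∈ Finset.Ioc n L, ∑ q ∈ b.D m, μ q ≤ (b.D n).card * ‖R‖ := by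
    rw [← Finset.sum_biUnion (hdisj _)]
    rw [hμ, Finset.sum_comm]
    calc ∑ p ∈ b.D n, ∑ q ∈ (Finset.Ioc n L).biUnion b.D, |(R (e q)).1 p|
        ≤ ∑ _p ∈ b.D n, ‖R‖ := Finset.sum_le_sum fun p _ => row R he _ p
      _ = (b.D n).card * ‖R‖ := by rw [Finset.sum_const, nsmul_eq_mul]
  have hb5 : ∑ q ∈ Fs, μ q ≤ ‖R‖ / (n + 1) := by
    refine (hb3.trans (mul_le_mul_of_nonneg_left hb4 hcc0.le)).trans ?_
    have h6 : (0 : ℝ) ≤ ((b.D n).card : ℝ) := by positivity
    have h7 : (0 : ℝ) < (n : ℝ) + 1 := by positivity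
    have h8 := norm_nonneg R
    rw [hcc, one_div, ← div_eq_inv_mul, div_le_div_iff₀ (by positivity) h7]
    nlinarith [mul_nonneg h8 h7.le]
  rw [hdec]
  have h9 : K * ∑ q ∈ Fs, μ q ≤ K * (‖R‖ / (n + 1)) := mul_le_mul_of_nonneg_left hb5 hK0
  calc |(R z1).1 p + (R z2).1 p| ≤ |(R z1).1 p| + |(R z2).1 p| := abs_add_le _ _
    _ ≤ K * (‖R‖ / (n + 1)) + ‖R‖ * ε := by linarith
    _ = K * ‖R‖ / (n + 1) + ‖R‖ * ε := by rw [mul_div_assoc]

/-- finite unions of members of an ideal -/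
theorem fin_union (I : Idl) (Q : ℕ → Set ℕ) (h : ∀ k, Q k ∈ I.1) (N : ℕ) :
    (⋃ k ∈ Finset.range N, Q k) ∈ I.1 := by
  induction N with
  | zero =>
    have : (⋃ k ∈ Finset.range 0, Q k) = ∅ := by simp
    rw [this]
    exact I.2.fin _ Set.finite_empty
  | succ N ih =>
    refine I.2.sub _ (I.2.union _ ih _ (h N)) _ ?_
    intro p hp
    simp only [Set.mem_iUnion, Finset.mem_range, exists_prop] at hp
    obtain ⟨k, hk, hpk⟩ := hp
    rcases Nat.lt_succ_iff_lt_or_eq.1 hk with h1 | h1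
    · left
      simp only [Set.mem_iUnion, Finset.mem_range, exists_prop]
      exact ⟨k, h1, hpk⟩
    · right
      rwa [← h1]

end BAux

open BAux in
theorem bStm (hC : CovStm) (hN : NosStm) : BStm := by
  intro b S S' hS hS' R u w K hu hw1 hw2 A hA hAS hbad
  classical
  have hK0 : 0 ≤ K := by
    have := hu ∅ 0
    simpa using this
  have huK : ∀ n p, |(u n).1 p| ≤ K := by
    intro n p
    have := hu {n} p
    simpa using this
  have hwu : ∀ n p, |(w n).1 p| ≤ |(u n).1 p| := by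
    intro n p
    by_cases h : p ∈ W b n
    · rw [hw1 n p h]
    · rw [hw2 n p h, abs_zero]
      exact abs_nonneg _
  have hwK : ∀ n p, |(w n).1 p| ≤ K := fun n p => (hwu n p).trans (huK n p)
  obtain ⟨e, he⟩ := exists_e (jdl b S' hS')
  set ε : ℝ := 1 / (8 * (‖R‖ + 1)) with hε
  have hR0 := norm_nonneg R
  have hε0 : 0 < ε := by positivity
  have hRε : ‖R‖ * ε ≤ 1 / 8 := by
    rw [hε, mul_one_div, div_le_div_iff₀ (by positivity) (by norm_num)]
    linarith
  -- the tails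
  have hL : ∀ n, ∃ L, n < L ∧ ∀ m, L < m → m ∈ S' →
      Cv b m {p | ε ≤ |(w n).1 p|} ((1 / 2) ^ n * b.r m) := by
    intro n
    obtain ⟨N, hN⟩ := mem_ideal (w n) ε hε0 ((1 / 2) ^ n) (by positivity)
    exact ⟨max N (n + 1), by omega, fun m hm hmS => hN m (by omega) hmS⟩
  choose L hL1 hL2 using hL
  -- the covers
  have hIc : ∀ n m, ∃ I : Finset ℕ, I.card ≤ b.t m ∧
      ∑ q ∈ (b.D m).filter (fun q => ∀ i ∈ I, b.inc i q = false),
        (∑ p ∈ b.D n, |(R (e q)).1 p|) ≤ (1 / 2) ^ (b.t m) *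
          ∑ q ∈ b.D m, ∑ p ∈ b.D n, |(R (e q)).1 p| := fun n m =>
    hC b m (b.t m) (fun q => ∑ p ∈ b.D n, |(R (e q)).1 p|)
      fun q => Finset.sum_nonneg fun _ _ => abs_nonneg _
  choose Ic hIc1 hIc2 using hIc
  set Q : ℕ → Set ℕ := fun n => Qs b n (L n) (Ic n) (w n).1 ε with hQ
  have hx : ∀ n, ∃ y : X (jdl b S' hS'), ∀ q, y.1 q = if q ∈ Q n then (w n).1 q else 0 := by
    intro n
    refine exists_dom (w n) _ fun q => ?_
    split_ifs
    · exact le_rfl
    · rw [abs_zero]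
      exact abs_nonneg _
  choose x hx using hx
  have hxw : ∀ n q, |(x n).1 q| ≤ |(w n).1 q| := by
    intro n q
    rw [hx]
    split_ifs
    · exact le_rfl
    · rw [abs_zero]
      exact abs_nonneg _
  have happ : ∀ n p, p ∈ b.D n → |(R (w n)).1 p - (R (x n)).1 p| ≤
      K * ‖R‖ / (n + 1) + ‖R‖ * ε := by
    intro n p hp
    refine approx b R he n (L n) (Ic n) (hIc2 n) (w n) (x n) K ε hK0 hε0.le (hwK n) (hw2 n)
      ?_ ?_ p hp
    · intro q hq
      rw [hx, if_pos hq]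
    · intro q hq
      rw [hx, if_neg hq]
  obtain ⟨n₁, hn₁⟩ := exists_nat_ge (8 * (K * ‖R‖))
  have hbad2 : ∀ n ∈ A, n₁ ≤ n → ¬ Cv b n {p | 1 / 4 ≤ |(R (x n)).1 p|} (1 / 4 * b.r n) := by
    intro n hnA hn hcv
    apply hbad n hnA
    refine hcv.mono ?_ (by ring_nf; rfl)
    intro p hp hp2
    have h1 : 1 / 2 ≤ |(R (w n)).1 p| := hp2
    have h2 := happ n p hp
    have h3 : K * ‖R‖ / (n + 1) ≤ 1 / 8 := by
      have : (n₁ : ℝ) ≤ n := by exact_mod_cast hn
      rw [div_le_div_iff₀ (by positivity) (by norm_num)]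
      linarith
    have h4 : |(R (w n)).1 p| ≤ |(R (w n)).1 p - (R (x n)).1 p| + |(R (x n)).1 p| := by
      have := abs_add_le ((R (w n)).1 p - (R (x n)).1 p) ((R (x n)).1 p)
      rwa [sub_add_cancel] at this
    show 1 / 4 ≤ |(R (x n)).1 p|
    linarith
  -- the subsequence
  have hnext : ∀ N, ∃ a, a ∈ A ∧ N < a := fun N => by
    obtain ⟨a, ha, h⟩ := hA.exists_gt N
    exact ⟨a, ha, h⟩
  choose nx hnx1 hnx2 using hnext
  set f : ℕ → ℕ := fun k => Nat.rec (nx n₁) (fun _ a => nx (L a)) k with hf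
  have hf0 : f 0 = nx n₁ := rfl
  have hfs : ∀ k, f (k + 1) = nx (L (f k)) := fun k => rfl
  have hfA : ∀ k, f k ∈ A := by
    intro k
    cases k with
    | zero => exact hnx1 _
    | succ k => rw [hfs]; exact hnx1 _
  have hLf : ∀ k, L (f k) < f (k + 1) := fun k => by rw [hfs]; exact hnx2 _
  have hfm : StrictMono f := strictMono_nat_of_lt_succ fun k => (hL1 (f k)).trans (hLf k)
  have hfn : ∀ k, n₁ ≤ f k := by
    intro k
    have h1 : f 0 ≤ f k := hfm.monotone (Nat.zero_le k)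
    have h2 := hnx2 n₁
    rw [hf0] at h1
    omega
  have hfk : ∀ k, k ≤ f k := fun k => hfm.le_apply
  have hsum : ∀ (F : Finset ℕ) (p : ℕ), ∑ k ∈ F, |(x (f k)).1 p| ≤ K := by
    intro F p
    calc ∑ k ∈ F, |(x (f k)).1 p| ≤ ∑ k ∈ F, |(u (f k)).1 p| :=
          Finset.sum_le_sum fun k _ => (hxw _ p).trans (hwu _ p)
      _ = ∑ j ∈ F.image f, |(u j).1 p| := by
          rw [Finset.sum_image fun a _ c _ h => hfm.injective h]
      _ ≤ K := hu _ p
  -- the union of the supports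
  have hQcov : ∀ n m, n < m → m ≤ L n → Cv b m (Q n) (b.t m) := by
    intro n m hnm hmL
    refine ⟨Ic n m, by exact_mod_cast hIc1 n m, fun p hp hpQ => ?_⟩
    rcases hpQ with ⟨k, _, _, hk, h⟩ | ⟨k, hk, hk', _⟩
    · have := blk_unique b hp hk
      subst this
      exact h
    · have := blk_unique b hp hk'
      omega
  have hQtail : ∀ n m, L n < m → ∀ p ∈ b.D m, p ∈ Q n → p ∈ {p | ε ≤ |(w n).1 p|} := by
    intro n m hm p hp hpQ
    rcases hpQ with ⟨k, _, hk1, hk, _⟩ | ⟨k, _, hk', h⟩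
    · have := blk_unique b hp hk
      omega
    · exact h
  have hQbefore : ∀ n m, m ≤ n → ∀ p ∈ b.D m, p ∉ Q n := by
    intro n m hm p hp hpQ
    have hLn := hL1 n
    rcases hpQ with ⟨k, hk1, _, hk, _⟩ | ⟨k, hk1, hk', _⟩
    · have := blk_unique b hp hk
      omega
    · have := blk_unique b hp hk'
      omega
  have hQJ : ∀ n, Q n ∈ (jdl b S' hS').1 := by
    intro n δ hδ
    obtain ⟨N, hN⟩ := mem_ideal (w n) ε hε0 δ hδ
    refine ⟨max N (L n + 1), fun m hm hmS => ?_⟩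
    exact (hN m (by omega) hmS).mono (hQtail n m (by omega)) le_rfl
  set U : Set ℕ := ⋃ k, Q (f k) with hU
  have hUJ : U ∈ (jdl b S' hS').1 := by
    intro δ hδ
    -- the beginning
    obtain ⟨k₁, hk₁⟩ : ∃ k₁ : ℕ, 2 * (1 / 2 : ℝ) ^ k₁ ≤ δ / 3 := by
      obtain ⟨k₁, h⟩ := exists_pow_lt_of_lt_one (show 0 < δ / 6 by positivity)
        (show (1 / 2 : ℝ) < 1 by norm_num)
      exact ⟨k₁, by linarith⟩
    obtain ⟨N₁, hN₁⟩ := fin_union (jdl b S' hS') (fun k => Q (f k)) (fun k => hQJ (f k)) k₁ (δ / 3)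
      (by positivity)
    obtain ⟨N₂, hN₂⟩ := exists_nat_ge (3 / δ)
    refine ⟨max N₁ N₂, fun m hm hmS => ?_⟩
    have hr0 : (0 : ℝ) ≤ b.r m := by positivity
    have hm2 : (3 / δ : ℝ) ≤ (m : ℝ) + 1 := by
      have : (N₂ : ℝ) ≤ m := by exact_mod_cast le_trans (le_max_right _ _) hm
      linarith
    have c1 := hN₁ m (le_trans (le_max_left _ _) hm) hmS
    -- the rest
    set s : ℕ → ℝ := fun k => (if f k < m ∧ m ≤ L (f k) then (b.t m : ℝ) else 0) +
      (1 / 2) ^ k * b.r m with hs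
    have c2 : Cv b m (⋃ k ∈ Finset.Ico k₁ (k₁ + m), Q (f k)) (∑ k ∈ Finset.Ico k₁ (k₁ + m), s k) := by
      refine Cv.biUnion _ _ _ fun k _ => ?_
      rcases le_or_gt m (f k) with h1 | h1
      · refine Cv.empty ?_ (hQbefore (f k) m h1)
        simp only [hs]
        split_ifs <;> positivity
      · rcases le_or_gt m (L (f k)) with h2 | h2
        · refine (hQcov (f k) m h1 h2).mono (fun p _ h => h) ?_
          simp only [hs, h1, h2, and_self, if_true]
          have : 0 ≤ (1 / 2 : ℝ) ^ k * b.r m := by positivity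
          linarith
        · refine (hL2 (f k) m h2 hmS).mono (hQtail (f k) m h2) ?_
          simp only [hs]
          rw [if_neg (by omega), zero_add]
          apply mul_le_mul_of_nonneg_right _ hr0
          exact pow_le_pow_of_le_one (by norm_num) (by norm_num) (hfk k)
    have hUsub : ∀ p ∈ b.D m, p ∈ U → p ∈ (⋃ k ∈ Finset.range k₁, Q (f k)) ∪
        ⋃ k ∈ Finset.Ico k₁ (k₁ + m), Q (f k) := by
      intro p hp hpU
      obtain ⟨k, hk⟩ := Set.mem_iUnion.1 hpU
      have hkm : f k < m := by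
        by_contra h
        exact hQbefore (f k) m (not_lt.1 h) p hp hk
      have := hfk k
      rcases lt_or_ge k k₁ with h | h
      · left
        simp only [Set.mem_iUnion, Finset.mem_range, exists_prop]
        exact ⟨k, h, hk⟩
      · right
        simp only [Set.mem_iUnion, Finset.mem_Ico, exists_prop]
        exact ⟨k, ⟨h, by omega⟩, hk⟩
    refine (c1.union c2).mono hUsub ?_
    -- the numbers
    have e1 : ∑ k ∈ Finset.Ico k₁ (k₁ + m), (if f k < m ∧ m ≤ L (f k) then (b.t m : ℝ) else 0) ≤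
        b.t m := by
      rw [← Finset.sum_filter, Finset.sum_const, nsmul_eq_mul]
      have hcard : ((Finset.Ico k₁ (k₁ + m)).filter
          (fun k => f k < m ∧ m ≤ L (f k))).card ≤ 1 := by
        rw [Finset.card_le_one]
        intro a ha c hc
        rw [Finset.mem_filter] at ha hc
        rcases lt_trichotomy a c with h | h | h
        · have h1 : f (a + 1) ≤ f c := hfm.monotone h
          have h2 := hLf a
          omega
        · exact h
        · have h1 : f (c + 1) ≤ f a := hfm.monotone h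
          have h2 := hLf c
          omega
      have hcard' : ((((Finset.Ico k₁ (k₁ + m)).filter
          (fun k => f k < m ∧ m ≤ L (f k))).card : ℕ) : ℝ) ≤ 1 := by exact_mod_cast hcard
      have ht0 : (0 : ℝ) ≤ b.t m := by positivity
      nlinarith
    have e2 : (b.t m : ℝ) ≤ δ / 3 * b.r m := by
      have h1 : ((m : ℝ) + 1) * b.t m ≤ b.r m := by exact_mod_cast b.growth1 m
      have h2 : 3 / δ * b.t m ≤ b.r m :=
        (mul_le_mul_of_nonneg_right hm2 (by positivity)).trans h1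
      have h3 : (b.t m : ℝ) = δ / 3 * (3 / δ * b.t m) := by field_simp
      rw [h3]
      exact mul_le_mul_of_nonneg_left h2 (by positivity)
    have e3 : ∑ k ∈ Finset.Ico k₁ (k₁ + m), (1 / 2 : ℝ) ^ k * b.r m ≤ δ / 3 * b.r m := by
      rw [← Finset.sum_mul]
      apply mul_le_mul_of_nonneg_right _ hr0
      refine le_trans ?_ hk₁
      rw [Finset.sum_Ico_eq_sum_range]
      have h1 : ∀ j, (1 / 2 : ℝ) ^ (k₁ + j) = (1 / 2) ^ k₁ * (1 / 2) ^ j := fun j => pow_add _ _ _
      rw [Finset.sum_congr rfl fun j _ => h1 j, ← Finset.mul_sum, mul_comm 2]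
      apply mul_le_mul_of_nonneg_left _ (by positivity)
      have h2 := geom_sum_eq (show (1 / 2 : ℝ) ≠ 1 by norm_num) (k₁ + m - k₁)
      rw [h2]
      have h3 : (0 : ℝ) ≤ (1 / 2) ^ (k₁ + m - k₁) := by positivity
      rw [div_le_iff_of_neg (by norm_num)]
      linarith
    simp only [hs]
    rw [Finset.sum_add_distrib]
    linarith
  refine hN b S hS (jdl b S' hS') R (fun k => x (f k)) f (1 / 4) (1 / 4) K hfm (fun k => hAS _ (hfA k))
    (by norm_num) (by norm_num) (fun k => hbad2 (f k) (hfA k) (hfn k)) hsum ?_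
  intro M
  have hsm : ∀ p, Summable (M.indicator (fun k => (x (f k)).1 p)) := by
    intro p
    apply Summable.of_norm
    refine summable_of_sum_le (c := K) (fun k => norm_nonneg _) fun F => ?_
    refine le_trans (Finset.sum_le_sum fun k _ => ?_) (hsum F p)
    rw [Real.norm_eq_abs]
    by_cases h : k ∈ M
    · rw [Set.indicator_of_mem h]
    · rw [Set.indicator_of_notMem h, abs_zero]
      exact abs_nonneg _
  obtain ⟨y, hy⟩ := exists_supp (I := jdl b S' hS') U hUJ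
    (fun p => ∑' k, M.indicator (fun k => (x (f k)).1 p) k) K (fun p => by
      have h1 : ∀ F : Finset ℕ, ∑ k ∈ F, |M.indicator (fun k => (x (f k)).1 p) k| ≤ K := by
        intro F
        refine le_trans (Finset.sum_le_sum fun k _ => ?_) (hsum F p)
        by_cases h : k ∈ M
        · rw [Set.indicator_of_mem h]
        · rw [Set.indicator_of_notMem h, abs_zero]
          exact abs_nonneg _
      have h2 : Summable fun k => |M.indicator (fun k => (x (f k)).1 p) k| :=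
        summable_of_sum_le (fun k => abs_nonneg _) h1
      have h3 := norm_tsum_le_tsum_norm (f := M.indicator (fun k => (x (f k)).1 p))
        (by simpa only [Real.norm_eq_abs] using h2)
      simp only [Real.norm_eq_abs] at h3
      exact h3.trans (h2.tsum_le_of_sum_le h1)) (fun p hp => by
      have h1 : ∀ k, M.indicator (fun k => (x (f k)).1 p) k = 0 := by
        intro k
        have h2 : p ∉ Q (f k) := fun h => hp (Set.mem_iUnion.2 ⟨k, h⟩)
        have h3 : (x (f k)).1 p = 0 := by rw [hx, if_neg h2]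
        by_cases h : k ∈ M
        · rw [Set.indicator_of_mem h, h3]
        · rw [Set.indicator_of_notMem h]
      simp only [h1, tsum_zero])
  refine ⟨y, fun p => ?_⟩
  rw [hy p]
  exact (hsm p).hasSum

end Pool.Agent.R464.GB
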