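import Pool.Agent.R464.GB.Defs

/-!
# GB-BLK: there is a block structure
-/

set_option autoImplicit false

open Filter Topology Set

namespace Pool.Agent.R464.GB

namespace BlkAux

/-- the sums of the sizes of the earlier cubes -/
def R : ℕ → ℕ
  | 0 => 0
  | n + 1 => R n + 2 ^ ((n + 1) * (n + 1 + R n))

/-- the parameter `t` -/
def tt (n : ℕ) : ℕ := n + 1 + R n

/-- the parameter `r` -/
def rr (n : ℕ) : ℕ := (n + 1) * tt n

theorem sum_R (n : ℕ) : ∑ m ∈ Finset.range n, 2 ^ rr m = R n := by
  induction n with
  | zero => simp [R]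
  | succ n ih => rw [Finset.sum_range_succ, ih]; rfl

/-- the codes of the points of a block -/
def codes (n : ℕ) : Finset ℕ :=
  (Finset.range (2 ^ rr n)).filter
    (fun c => rr n ≤ 2 * ((Finset.range (rr n)).filter (fun i => c.testBit i = true)).card)

/-- the blocks -/
def DD (n : ℕ) : Finset ℕ := (codes n).image (fun c => Nat.pair n c)

theorem card_DD (n : ℕ) : (DD n).card ≤ 2 ^ rr n := by
  refine Finset.card_image_le.trans ?_
  refine (Finset.card_filter_le _ _).trans ?_
  rw [Finset.card_range]

end BlkAux

open BlkAux in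
theorem blkStm : BlkStm := by
  refine ⟨{
    D := DD
    r := rr
    t := tt
    inc := fun i p => (Nat.unpair p).2.testBit i
    rpos := ?_
    disj := ?_
    half := ?_
    big := ?_
    growth1 := fun n => le_rfl
    growth2 := ?_ }⟩
  · intro n
    unfold rr tt
    positivity
  · intro m n hmn
    rw [Finset.disjoint_left]
    intro p hp hq
    simp only [DD, Finset.mem_image] at hp hq
    obtain ⟨c, _, rfl⟩ := hp
    obtain ⟨d, _, hd⟩ := hq
    exact hmn (Nat.pair_eq_pair.1 hd).1.symm
  · intro n p hp
    simp only [DD, Finset.mem_image] at hp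
    obtain ⟨c, hc, rfl⟩ := hp
    have := (Finset.mem_filter.1 hc).2
    simpa [Nat.unpair_pair] using this
  · intro n I hI
    let c : ℕ := Nat.ofBits (fun i : Fin (rr n) => decide ((i : ℕ) ∉ I))
    have hlt : ∀ i, i < rr n → c.testBit i = decide (i ∉ I) := by
      intro i hi
      exact Nat.testBit_ofBits_lt _ i hi
    have hge : ∀ i, rr n ≤ i → c.testBit i = false := by
      intro i hi
      exact Nat.testBit_ofBits_ge _ i hi
    refine ⟨Nat.pair n c, ?_, ?_⟩
    · refine Finset.mem_image.2 ⟨c, ?_, rfl⟩
      refine Finset.mem_filter.2 ⟨Finset.mem_range.2 (Nat.ofBits_lt_two_pow _), ?_⟩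
      have h1 : (Finset.range (rr n)) \ I ⊆
          (Finset.range (rr n)).filter (fun i => c.testBit i = true) := by
        intro i hi
        rw [Finset.mem_sdiff] at hi
        rw [Finset.mem_filter]
        refine ⟨hi.1, ?_⟩
        rw [hlt i (Finset.mem_range.1 hi.1)]
        simpa using hi.2
      have h2 := Finset.card_le_card h1
      have h3 : (Finset.range (rr n)).card - I.card ≤ ((Finset.range (rr n)) \ I).card :=
        Finset.le_card_sdiff I (Finset.range (rr n))
      rw [Finset.card_range] at h3
      omega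
    · intro i hi
      show (Nat.unpair (Nat.pair n c)).2.testBit i = false
      rw [Nat.unpair_pair]
      show c.testBit i = false
      rcases lt_or_ge i (rr n) with h | h
      · rw [hlt i h]
        simpa using hi
      · exact hge i h
  · intro n
    have h1 : ∑ m ∈ Finset.range n, (DD m).card ≤ R n := by
      rw [← sum_R]
      exact Finset.sum_le_sum fun m _ => card_DD m
    have h2 : n + 1 ≤ 2 ^ n := Nat.lt_two_pow_self
    have h3 : 1 + R n ≤ 2 ^ (1 + R n) := Nat.lt_two_pow_self.le
    calc (n + 1) * (1 + ∑ m ∈ Finset.range n, (DD m).card)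
        ≤ 2 ^ n * 2 ^ (1 + R n) := Nat.mul_le_mul h2 ((Nat.add_le_add_left h1 1).trans h3)
      _ = 2 ^ tt n := by rw [← pow_add]; congr 1; unfold tt; ring

end Pool.Agent.R464.GB
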