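import Pool.Agent.R464.GB.Defs

/-!
# Project GB, pieces BOR and CNT: descriptive complexity of the ideals (helper567)
-/

set_option autoImplicit false

open Filter Topology Set

namespace Pool.Agent.R464.GB

open Pool.Agent.R464.GI

theorem meas_Cv (b : Blk) (n : ℕ) (s : ℝ) :
    MeasurableSet {f : ℕ → Bool | Cv b n {p | f p = true} s} := by
  have h : {f : ℕ → Bool | Cv b n {p | f p = true} s} =
      ⋃ I : Finset ℕ, ⋂ p : ℕ, {f : ℕ → Bool | (I.card : ℝ) ≤ s ∧
        (p ∈ b.D n → f p = true → ∃ i ∈ I, b.inc i p = true)} := by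
    ext f
    rw [Set.mem_iUnion]
    constructor
    · rintro ⟨I, hI, hc⟩
      exact ⟨I, Set.mem_iInter.2 fun p => ⟨hI, fun hp hf => hc p hp hf⟩⟩
    · rintro ⟨I, hI⟩
      rw [Set.mem_iInter] at hI
      exact ⟨I, (hI 0).1, fun p hp hf => (hI p).2 hp hf⟩
  rw [h]
  refine MeasurableSet.iUnion fun I => MeasurableSet.iInter fun p => ?_
  have hp : Measurable (fun f : ℕ → Bool => f p) := measurable_pi_apply p
  have hm : MeasurableSet {f : ℕ → Bool | f p = true} := hp (MeasurableSet.singleton true)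
  have hm' : MeasurableSet {f : ℕ → Bool | ¬ f p = true} := hm.compl
  by_cases h1 : (I.card : ℝ) ≤ s
  · by_cases h2 : p ∈ b.D n
    · by_cases h3 : ∃ i ∈ I, b.inc i p = true
      · have : {f : ℕ → Bool | (I.card : ℝ) ≤ s ∧
            (p ∈ b.D n → f p = true → ∃ i ∈ I, b.inc i p = true)} = Set.univ := by
          ext f
          exact ⟨fun _ => trivial, fun _ => ⟨h1, fun _ _ => h3⟩⟩
        rw [this]
        exact MeasurableSet.univ
      · have : {f : ℕ → Bool | (I.card : ℝ) ≤ s ∧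
            (p ∈ b.D n → f p = true → ∃ i ∈ I, b.inc i p = true)} =
            {f : ℕ → Bool | ¬ f p = true} := by
          ext f
          exact ⟨fun hf hfp => h3 (hf.2 h2 hfp), fun hf => ⟨h1, fun _ hfp => absurd hfp hf⟩⟩
        rw [this]
        exact hm'
    · have : {f : ℕ → Bool | (I.card : ℝ) ≤ s ∧
          (p ∈ b.D n → f p = true → ∃ i ∈ I, b.inc i p = true)} = Set.univ := by
        ext f
        exact ⟨fun _ => trivial, fun _ => ⟨h1, fun hp => absurd hp h2⟩⟩
      rw [this]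
      exact MeasurableSet.univ
  · have : {f : ℕ → Bool | (I.card : ℝ) ≤ s ∧
        (p ∈ b.D n → f p = true → ∃ i ∈ I, b.inc i p = true)} = ∅ := by
      ext f
      exact ⟨fun hf => absurd hf.1 h1, fun hf => absurd hf (Set.notMem_empty f)⟩
    rw [this]
    exact MeasurableSet.empty

theorem mem_JS_iff (b : Blk) (S A : Set ℕ) : A ∈ JS b S ↔
    ∀ j : ℕ, ∃ N, ∀ n, (N ≤ n ∧ n ∈ S) → Cv b n A (1 / ((j : ℝ) + 1) * b.r n) := by
  constructor
  · intro h j
    obtain ⟨N, hN⟩ := h (1 / ((j : ℝ) + 1)) (by positivity)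
    exact ⟨N, fun n hn => hN n hn.1 hn.2⟩
  · intro h ε hε
    obtain ⟨j, hj⟩ := exists_nat_one_div_lt hε
    obtain ⟨N, hN⟩ := h j
    refine ⟨N, fun n hn hnS => (hN n ⟨hn, hnS⟩).mono (fun p _ hp => hp) ?_⟩
    exact mul_le_mul_of_nonneg_right hj.le (by positivity)

/-- GB-BOR -/
theorem borStm : BorStm := by
  intro b S hS
  have h : {f : ℕ → Bool | {n | f n = true} ∈ (jdl b S hS).1} =
      ⋂ j : ℕ, ⋃ N : ℕ, ⋂ n : ℕ, {f : ℕ → Bool | (N ≤ n ∧ n ∈ S) →
        Cv b n {p | f p = true} (1 / ((j : ℝ) + 1) * b.r n)} := by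
    ext f
    rw [Set.mem_iInter]
    constructor
    · intro hf j
      obtain ⟨N, hN⟩ := (mem_JS_iff b S {n | f n = true}).1 hf j
      exact Set.mem_iUnion.2 ⟨N, Set.mem_iInter.2 fun n => hN n⟩
    · intro hf
      refine (mem_JS_iff b S {n | f n = true}).2 fun j => ?_
      obtain ⟨N, hN⟩ := Set.mem_iUnion.1 (hf j)
      exact ⟨N, fun n hn => (Set.mem_iInter.1 hN n) hn⟩
  unfold BorelIdeal
  rw [h]
  refine MeasurableSet.iInter fun j => MeasurableSet.iUnion fun N => MeasurableSet.iInter fun n => ?_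
  by_cases h1 : N ≤ n ∧ n ∈ S
  · have : {f : ℕ → Bool | (N ≤ n ∧ n ∈ S) →
        Cv b n {p | f p = true} (1 / ((j : ℝ) + 1) * b.r n)} =
        {f : ℕ → Bool | Cv b n {p | f p = true} (1 / ((j : ℝ) + 1) * b.r n)} := by
      ext f
      exact ⟨fun hf => hf h1, fun hf _ => hf⟩
    rw [this]
    exact meas_Cv b n _
  · have : {f : ℕ → Bool | (N ≤ n ∧ n ∈ S) →
        Cv b n {p | f p = true} (1 / ((j : ℝ) + 1) * b.r n)} = Set.univ := by
      ext f
      exact ⟨fun _ => trivial, fun _ hh => absurd hh h1⟩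
    rw [this]
    exact MeasurableSet.univ

end Pool.Agent.R464.GB
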