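import Pool.Agent.R464.GB.Defs

/-!
# Project GB, piece CNT: at most continuum many analytic ideals (helper567)
-/

set_option autoImplicit false

open Filter Topology Set

namespace Pool.Agent.R464.GB

open Pool.Agent.R464.GI

theorem card_cont : Cardinal.mk {f : (ℕ → ℕ) → (ℕ → Bool) // Continuous f} ≤
    Cardinal.continuum := by
  obtain ⟨Q, hQc, hQd⟩ := TopologicalSpace.exists_countable_dense (ℕ → ℕ)
  have hinj : Function.Injective
      (fun (f : {f : (ℕ → ℕ) → (ℕ → Bool) // Continuous f}) (x : Q) => f.1 (x : ℕ → ℕ)) := by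
    intro f g hfg
    refine Subtype.ext (Continuous.ext_on hQd f.2 g.2 ?_)
    intro x hx
    exact congrFun hfg ⟨x, hx⟩
  refine le_trans (Cardinal.mk_le_of_injective hinj) ?_
  have h1 : Cardinal.mk (ℕ → Bool) = Cardinal.continuum := by
    simp
  rw [← Cardinal.power_def, h1]
  have h2 : Cardinal.mk Q ≤ Cardinal.aleph0 := Cardinal.mk_le_aleph0_iff.2 hQc.to_subtype
  refine le_trans (Cardinal.power_le_power_left Cardinal.continuum_ne_zero h2) ?_
  rw [Cardinal.continuum_power_aleph0]

theorem card_analytic : Cardinal.mk {s : Set (ℕ → Bool) // MeasureTheory.AnalyticSet s} ≤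
    Cardinal.continuum := by
  have hsurj : Function.Surjective
      (fun f : Option {f : (ℕ → ℕ) → (ℕ → Bool) // Continuous f} =>
        (match f with
          | none => ⟨∅, MeasureTheory.analyticSet_empty⟩
          | some f => ⟨Set.range f.1, MeasureTheory.analyticSet_range_of_polishSpace f.2⟩ :
        {s : Set (ℕ → Bool) // MeasureTheory.AnalyticSet s})) := by
    rintro ⟨s, hs⟩
    have hs' := hs
    rw [MeasureTheory.AnalyticSet] at hs'
    rcases hs' with h | ⟨f, hf, hr⟩
    · exact ⟨none, Subtype.ext h.symm⟩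
    · exact ⟨some ⟨f, hf⟩, Subtype.ext hr⟩
  refine le_trans (Cardinal.mk_le_of_surjective hsurj) ?_
  rw [Cardinal.mk_option]
  refine le_trans (add_le_add card_cont (Cardinal.one_le_aleph0)) ?_
  rw [Cardinal.continuum_add_aleph0]

/-- GB-CNT -/
theorem cntStm : CntStm := by
  have hP : PolishSpace (ℕ → Bool) := PolishSpace.mk
  refine ⟨fun I hI => MeasurableSet.analyticSet hI, ?_⟩
  have hinj : Function.Injective (fun I : {I : Idl // AnalyticIdeal I} =>
      (⟨{f : ℕ → Bool | {n | f n = true} ∈ I.1.1}, I.2⟩ :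
        {s : Set (ℕ → Bool) // MeasureTheory.AnalyticSet s})) := by
    intro I J hIJ
    refine Subtype.ext (Subtype.ext ?_)
    ext A
    classical
    have h1 : {f : ℕ → Bool | {n | f n = true} ∈ I.1.1} = {f : ℕ → Bool | {n | f n = true} ∈ J.1.1} :=
      congrArg Subtype.val hIJ
    have h2 : {n | (fun n => decide (n ∈ A)) n = true} = A := by
      ext n
      simp
    have h3 := Set.ext_iff.1 h1 (fun n => decide (n ∈ A))
    rw [Set.mem_ofPred_eq, Set.mem_ofPred_eq, h2] at h3
    exact h3
  exact le_trans (Cardinal.mk_le_of_injective hinj) card_analytic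

end Pool.Agent.R464.GB
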