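import Pool.Agent.R464.GB.Defs

/-!
# Project GB, piece GB-COV: few members of the covering family cover most of the mass
-/

set_option autoImplicit false

namespace Pool.Agent.R464.GB

/-- one step: some member covers at least half of the mass of a part of the block -/
theorem cov_step (b : Blk) (n : ℕ) (μ : ℕ → ℝ) (hμ : ∀ q, 0 ≤ μ q) (E : Finset ℕ)
    (hE : E ⊆ b.D n) :
    ∃ i, ∑ q ∈ E.filter (fun q => b.inc i q = false), μ q ≤ (1 / 2) * ∑ q ∈ E, μ q := by
  classical
  by_contra hcon
  push Not at hcon
  have hr : (0 : ℝ) < b.r n := by exact_mod_cast b.rpos n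
  -- sum over all members
  have h1 : ∑ i ∈ Finset.range (b.r n), (1 / 2 : ℝ) * ∑ q ∈ E, μ q
      < ∑ i ∈ Finset.range (b.r n), ∑ q ∈ E.filter (fun q => b.inc i q = false), μ q := by
    refine Finset.sum_lt_sum_of_nonempty ?_ (fun i _ => hcon i)
    exact Finset.nonempty_range_iff.2 (b.rpos n).ne'
  have h2 : ∑ i ∈ Finset.range (b.r n), ∑ q ∈ E.filter (fun q => b.inc i q = false), μ q
      = ∑ q ∈ E, (((Finset.range (b.r n)).filter (fun i => b.inc i q = false)).card : ℝ) * μ q := by
    have h3 : ∀ i, ∑ q ∈ E.filter (fun q => b.inc i q = false), μ q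
        = ∑ q ∈ E, if b.inc i q = false then μ q else 0 := fun i => Finset.sum_filter _ _
    simp_rw [h3]
    rw [Finset.sum_comm]
    refine Finset.sum_congr rfl (fun q _ => ?_)
    rw [← Finset.sum_filter, Finset.sum_const, nsmul_eq_mul]
  have h4 : ∑ q ∈ E, (((Finset.range (b.r n)).filter (fun i => b.inc i q = false)).card : ℝ) * μ q
      ≤ ∑ q ∈ E, ((b.r n : ℝ) / 2) * μ q := by
    refine Finset.sum_le_sum (fun q hq => mul_le_mul_of_nonneg_right ?_ (hμ q))
    have h5 := b.half n q (hE hq)
    have h6 : ((Finset.range (b.r n)).filter (fun i => b.inc i q = true)).card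
        + ((Finset.range (b.r n)).filter (fun i => b.inc i q = false)).card = b.r n := by
      have h7 := Finset.card_filter_add_card_filter_not (s := Finset.range (b.r n))
        (fun i => b.inc i q = true)
      simpa using h7
    have h8 : 2 * ((Finset.range (b.r n)).filter (fun i => b.inc i q = false)).card ≤ b.r n := by
      omega
    have h9 : (2 : ℝ) * ((Finset.range (b.r n)).filter (fun i => b.inc i q = false)).card
        ≤ b.r n := by exact_mod_cast h8
    linarith
  rw [h2, Finset.sum_const, Finset.card_range, nsmul_eq_mul] at h1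
  rw [← Finset.mul_sum] at h4
  linarith

/-- GB-COV -/
theorem covStm : CovStm := by
  classical
  intro b n t μ hμ
  induction t with
  | zero =>
    refine ⟨∅, by simp, ?_⟩
    simp
  | succ t ih =>
    obtain ⟨I, hI, hm⟩ := ih
    obtain ⟨i, hi⟩ := cov_step b n μ hμ
      ((b.D n).filter (fun q => ∀ i ∈ I, b.inc i q = false)) (Finset.filter_subset _ _)
    refine ⟨insert i I, (Finset.card_insert_le _ _).trans (by omega), ?_⟩
    have hE : (b.D n).filter (fun q => ∀ j ∈ insert i I, b.inc j q = false)
        = ((b.D n).filter (fun q => ∀ j ∈ I, b.inc j q = false)).filter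
          (fun q => b.inc i q = false) := by
      ext q
      simp only [Finset.mem_filter, Finset.mem_insert, forall_eq_or_imp]
      tauto
    rw [hE]
    refine hi.trans ?_
    rw [pow_succ]
    have : (1 / 2 : ℝ) * ∑ q ∈ (b.D n).filter (fun q => ∀ j ∈ I, b.inc j q = false), μ q
        ≤ (1 / 2) * ((1 / 2) ^ t * ∑ q ∈ b.D n, μ q) := by
      exact mul_le_mul_of_nonneg_left hm (by norm_num)
    linarith

end Pool.Agent.R464.GB
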