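import Pool.Agent.R464.GI.Defs

/-!
# Project GB (MP_7e1ced_an): Borel ideals with Grothendieck `c_{0,I}`

Proofs: `Pool/Agent/R464/GB/NOTES.md`.
-/

set_option autoImplicit false

open Filter Topology Set

namespace Pool.Agent.R464.GB

open Pool.Agent.R464.GI

/-- Block structures: pairwise disjoint finite blocks `D n` of points of `ℕ`; for a point `p` of
the block `D n`, the numbers `i < r n` with `inc i p` are the indices of the members of the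
covering family of the block containing `p`. Every point is in at least half of the members
(`half`), and no family of at most `r n / 2` members covers the block (`big`). -/
structure Blk where
  D : ℕ → Finset ℕ
  r : ℕ → ℕ
  t : ℕ → ℕ
  inc : ℕ → ℕ → Bool
  rpos : ∀ n, 0 < r n
  disj : ∀ m n, m ≠ n → Disjoint (D m) (D n)
  half : ∀ n, ∀ p ∈ D n, r n ≤ 2 * ((Finset.range (r n)).filter (fun i => inc i p = true)).card
  big : ∀ n, ∀ I : Finset ℕ, 2 * I.card ≤ r n → ∃ p ∈ D n, ∀ i ∈ I, inc i p = false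
  growth1 : ∀ n, (n + 1) * t n ≤ r n
  growth2 : ∀ n, (n + 1) * (1 + ∑ m ∈ Finset.range n, (D m).card) ≤ 2 ^ t n

/-- GB-BLK: there is a block structure. -/
def BlkStm : Prop := Nonempty Blk

/-- `A ∩ D n` is covered by at most `s` members of the covering family -/
def Cv (b : Blk) (n : ℕ) (A : Set ℕ) (s : ℝ) : Prop :=
  ∃ I : Finset ℕ, (I.card : ℝ) ≤ s ∧ ∀ p ∈ b.D n, p ∈ A → ∃ i ∈ I, b.inc i p = true

theorem Cv.mono {b : Blk} {n : ℕ} {A B : Set ℕ} {s s' : ℝ} (h : Cv b n A s)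
    (hB : ∀ p ∈ b.D n, p ∈ B → p ∈ A) (hs : s ≤ s') : Cv b n B s' := by
  obtain ⟨I, hI, hc⟩ := h
  exact ⟨I, hI.trans hs, fun p hp hpB => hc p hp (hB p hp hpB)⟩

theorem Cv.union {b : Blk} {n : ℕ} {A B : Set ℕ} {s s' : ℝ} (h : Cv b n A s)
    (h' : Cv b n B s') : Cv b n (A ∪ B) (s + s') := by
  classical
  obtain ⟨I, hI, hc⟩ := h
  obtain ⟨I', hI', hc'⟩ := h'
  refine ⟨I ∪ I', ?_, ?_⟩
  · have h1 : ((I ∪ I').card : ℝ) ≤ (I.card : ℝ) + (I'.card : ℝ) := by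
      exact_mod_cast Finset.card_union_le I I'
    linarith
  · rintro p hp (hA | hB)
    · obtain ⟨i, hi, h⟩ := hc p hp hA
      exact ⟨i, Finset.mem_union_left _ hi, h⟩
    · obtain ⟨i, hi, h⟩ := hc' p hp hB
      exact ⟨i, Finset.mem_union_right _ hi, h⟩

theorem Cv.empty {b : Blk} {n : ℕ} {A : Set ℕ} {s : ℝ} (hs : 0 ≤ s)
    (hA : ∀ p ∈ b.D n, p ∉ A) : Cv b n A s :=
  ⟨∅, by simpa using hs, fun p hp hpA => absurd hpA (hA p hp)⟩

theorem Cv.biUnion {b : Blk} {n : ℕ} (F : Finset ℕ) (A : ℕ → Set ℕ) (s : ℕ → ℝ)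
    (h : ∀ k ∈ F, Cv b n (A k) (s k)) : Cv b n (⋃ k ∈ F, A k) (∑ k ∈ F, s k) := by
  classical
  induction F using Finset.induction_on with
  | empty => exact Cv.empty (by simp) (by simp)
  | insert a F ha ih =>
    rw [Finset.sum_insert ha]
    refine (Cv.union (h a (Finset.mem_insert_self _ _))
      (ih fun k hk => h k (Finset.mem_insert_of_mem hk))).mono ?_ le_rfl
    intro p _ hp
    rwa [Finset.set_biUnion_insert] at hp

theorem not_Cv_univ (b : Blk) (n : ℕ) : ¬ Cv b n Set.univ ((b.r n : ℝ) / 2) := by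
  rintro ⟨I, hI, hc⟩
  have h1 : 2 * I.card ≤ b.r n := by
    have : (2 : ℝ) * I.card ≤ b.r n := by linarith
    exact_mod_cast this
  obtain ⟨p, hp, hi⟩ := b.big n I h1
  obtain ⟨i, hiI, h⟩ := hc p hp trivial
  rw [hi i hiI] at h
  exact absurd h (by simp)

/-- the ideal `J_S`: `A` belongs to it if the covering numbers of `A ∩ D n` are `o(r n)` for
`n → ∞` in `S`. -/
def JS (b : Blk) (S : Set ℕ) : Set (Set ℕ) :=
  {A | ∀ ε : ℝ, 0 < ε → ∃ N, ∀ n, N ≤ n → n ∈ S → Cv b n A (ε * b.r n)}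

theorem fin_off (b : Blk) (A : Set ℕ) (hA : A.Finite) : ∃ N, ∀ n, N ≤ n → ∀ p ∈ b.D n, p ∉ A := by
  by_contra hcon
  push Not at hcon
  choose n hn p hp hpA using hcon
  -- infinitely many blocks meet `A`
  have hinf : Set.Infinite (Set.range n) := by
    intro hf
    obtain ⟨N, hN⟩ := hf.bddAbove
    have h1 := hN ⟨N + 1, rfl⟩
    have h2 := hn (N + 1)
    omega
  have hfin : (Set.range n).Finite := by
    refine Set.Finite.subset (Set.Finite.biUnion hA (t := fun q => {k | q ∈ b.D k}) ?_) ?_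
    · intro q _
      refine Set.Subsingleton.finite ?_
      intro k hk l hl
      by_contra hkl
      exact Finset.disjoint_left.1 (b.disj k l hkl) hk hl
    · rintro _ ⟨N, rfl⟩
      exact Set.mem_biUnion (hpA N) (hp N)
  exact hinf hfin

theorem isIdeal_JS (b : Blk) (S : Set ℕ) (hS : S.Infinite) : IsIdeal (JS b S) where
  union := by
    intro A hA B hB ε hε
    obtain ⟨N, hN⟩ := hA (ε / 2) (by linarith)
    obtain ⟨N', hN'⟩ := hB (ε / 2) (by linarith)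
    refine ⟨max N N', fun n hn hnS => ?_⟩
    exact ((hN n (le_trans (le_max_left _ _) hn) hnS).union
      (hN' n (le_trans (le_max_right _ _) hn) hnS)).mono (fun p _ h => h) (by ring_nf; rfl)
  sub := by
    intro A hA B hB ε hε
    obtain ⟨N, hN⟩ := hA ε hε
    exact ⟨N, fun n hn hnS => (hN n hn hnS).mono (fun p _ h => hB h) le_rfl⟩
  fin := by
    intro A hA ε hε
    obtain ⟨N, hN⟩ := fin_off b A hA
    exact ⟨N, fun n hn _ => Cv.empty (by positivity) (hN n hn)⟩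
  proper := by
    intro h
    obtain ⟨N, hN⟩ := h (1 / 2) (by norm_num)
    obtain ⟨n, hnS, hn⟩ := hS.exists_gt N
    exact not_Cv_univ b n ((hN n hn.le hnS).mono (fun p _ h => h) (by ring_nf; rfl))

/-- the ideal `J_S`, bundled -/
def jdl (b : Blk) (S : Set ℕ) (hS : S.Infinite) : Idl := ⟨JS b S, isIdeal_JS b S hS⟩

/-- solidity of `c_{0,I}` -/
theorem exists_dom {I : Idl} (x : X I) (u : ℕ → ℝ) (h : ∀ n, |u n| ≤ |x.1 n|) :
    ∃ y : X I, ∀ n, y.1 n = u n :=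
  exists_X I u ‖x‖ (fun n => (h n).trans (abs_le_norm x n)) (fun ε hε =>
    I.2.sub _ (mem_ideal x ε hε) _ (fun n hn => le_trans (show ε ≤ |u n| from hn) (h n)))

/-- bounded sequences with support in the ideal -/
theorem exists_supp {I : Idl} (A : Set ℕ) (hA : A ∈ I.1) (u : ℕ → ℝ) (C : ℝ)
    (hC : ∀ n, |u n| ≤ C) (h : ∀ n, n ∉ A → u n = 0) : ∃ y : X I, ∀ n, y.1 n = u n :=
  exists_X I u C hC (fun ε hε => I.2.sub _ hA _ (fun n hn => by
    by_contra hnA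
    have h1 : ε ≤ |u n| := hn
    rw [h n hnA, abs_zero] at h1
    linarith))

/-- the property of an ideal used for the uniform exhaustivity -/
def PprI (I : Idl) : Prop := ∀ (M : ℝ) (m : ℕ → Set ℕ → ℝ),
  (∀ n, FA M (m n)) → ∀ B : ℕ → Set ℕ, (∀ k, B k ∈ I.1) →
  (∀ i j, i ≠ j → Disjoint (B i) (B j)) → ∀ ε : ℝ, 0 < ε → (∀ k, ε ≤ m k (B k)) →
  ∃ (f : ℕ → ℕ) (B' : ℕ → Set ℕ), StrictMono f ∧ (∀ k, B' k ⊆ B (f k)) ∧
    (∀ k, ε / 4 ≤ m (f k) (B' k)) ∧ (⋃ k, B' k) ∈ I.1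

/-- GB-PPR -/
def PprStm : Prop := ∀ (b : Blk) (S : Set ℕ) (hS : S.Infinite), PprI (jdl b S hS)

/-- Borel ideals -/
def BorelIdeal (I : Idl) : Prop := MeasurableSet {f : ℕ → Bool | {n | f n = true} ∈ I.1}

/-- analytic ideals -/
def AnalyticIdeal (I : Idl) : Prop :=
  MeasureTheory.AnalyticSet {f : ℕ → Bool | {n | f n = true} ∈ I.1}

/-- GB-BOR: the ideals `J_S` are Borel. -/
def BorStm : Prop := ∀ (b : Blk) (S : Set ℕ) (hS : S.Infinite), BorelIdeal (jdl b S hS)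

/-- GB-CNT: Borel ideals are analytic, and there are at most continuum many analytic ideals. -/
def CntStm : Prop := (∀ I, BorelIdeal I → AnalyticIdeal I) ∧
  Cardinal.mk {I : Idl // AnalyticIdeal I} ≤ Cardinal.continuum

/-- GB-ADF: almost disjoint families -/
def AdfStm : Prop := ∀ (C : ℕ → ℝ) (g : ℕ → Set ℕ → ℝ),
  (∀ p A B, Disjoint A B → g p (A ∪ B) = g p A + g p B) → (∀ p A, |g p A| ≤ C p) →
  (∀ p (A : Set ℕ), A.Finite → g p A = 0) → ∀ M₀ : Set ℕ, M₀.Infinite →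
  ∃ M ⊆ M₀, M.Infinite ∧ ∀ p, g p M = 0

/-- GB-COV: few members of the covering family of a block cover most of the mass. -/
def CovStm : Prop := ∀ (b : Blk) (n t : ℕ) (μ : ℕ → ℝ), (∀ q, 0 ≤ μ q) →
  ∃ I : Finset ℕ, I.card ≤ t ∧
    ∑ q ∈ (b.D n).filter (fun q => ∀ i ∈ I, b.inc i q = false), μ q ≤
      (1 / 2) ^ t * ∑ q ∈ b.D n, μ q

/-- GB-NOS (uses GB-ADF) -/
def NosStm : Prop := ∀ (b : Blk) (S : Set ℕ) (hS : S.Infinite) (J : Idl)
  (R : X J →L[ℝ] X (jdl b S hS)) (x : ℕ → X J) (m : ℕ → ℕ) (c δ C : ℝ), StrictMono m →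
  (∀ k, m k ∈ S) → 0 < c → 0 < δ →
  (∀ k, ¬ Cv b (m k) {p | c ≤ |(R (x k)).1 p|} (δ * b.r (m k))) →
  (∀ (F : Finset ℕ) (p : ℕ), ∑ k ∈ F, |(x k).1 p| ≤ C) →
  (∀ M : Set ℕ, ∃ y : X J, ∀ p, HasSum (M.indicator (fun k => (x k).1 p)) (y.1 p)) → False

/-- GB-A1 (uses GB-NOS, GB-COV) -/
def A1Stm : Prop := ∀ (b : Blk) (S S' : Set ℕ) (hS : S.Infinite) (hS' : S'.Infinite)
  (T : X (jdl b S hS) →L[ℝ] X (jdl b S' hS')) (d : ℕ → X (jdl b S hS)),
  (∀ n p, (d n).1 p = ind (b.D n) p) → ∀ c δ : ℝ, 0 < c → 0 < δ →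
  ∃ N, ∀ n, N ≤ n → ∀ m, m < n → m ∈ S' → Cv b m {p | c ≤ |(T (d n)).1 p|} (δ * b.r m)

/-- the union of the blocks after `D n` -/
def W (b : Blk) (n : ℕ) : Set ℕ := {p | ∃ m, n < m ∧ p ∈ b.D m}

/-- GB-A2 (uses GB-NOS) -/
def A2Stm : Prop := ∀ (b : Blk) (S S' : Set ℕ) (hS : S.Infinite) (hS' : S'.Infinite)
  (R : X (jdl b S' hS') →L[ℝ] X (jdl b S hS)) (u v : ℕ → X (jdl b S' hS')) (K : ℝ),
  (∀ (F : Finset ℕ) (p : ℕ), ∑ k ∈ F, |(u k).1 p| ≤ K) →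
  (∀ c δ : ℝ, 0 < c → 0 < δ → ∃ N, ∀ n, N ≤ n → ∀ m, m < n → m ∈ S' →
    Cv b m {p | c ≤ |(u n).1 p|} (δ * b.r m)) →
  (∀ n p, p ∉ W b n → (v n).1 p = (u n).1 p) → (∀ n p, p ∈ W b n → (v n).1 p = 0) →
  ∀ A : Set ℕ, A.Infinite → (∀ n ∈ A, n ∈ S ∧ n ∉ S') →
  ¬ ∀ n ∈ A, ¬ Cv b n {p | 1 / 2 ≤ |(R (v n)).1 p|} ((b.r n : ℝ) / 4)

/-- GB-B (uses GB-NOS, GB-COV) -/
def BStm : Prop := ∀ (b : Blk) (S S' : Set ℕ) (hS : S.Infinite) (hS' : S'.Infinite)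
  (R : X (jdl b S' hS') →L[ℝ] X (jdl b S hS)) (u w : ℕ → X (jdl b S' hS')) (K : ℝ),
  (∀ (F : Finset ℕ) (p : ℕ), ∑ k ∈ F, |(u k).1 p| ≤ K) →
  (∀ n p, p ∈ W b n → (w n).1 p = (u n).1 p) → (∀ n p, p ∉ W b n → (w n).1 p = 0) →
  ∀ A : Set ℕ, A.Infinite → (∀ n ∈ A, n ∈ S) →
  ¬ ∀ n ∈ A, ¬ Cv b n {p | 1 / 2 ≤ |(R (w n)).1 p|} ((b.r n : ℝ) / 4)

/-- GB-NIS (uses GB-A1, GB-A2, GB-B): non-isomorphism -/
def NisStm : Prop := ∀ (b : Blk) (S S' : Set ℕ) (hS : S.Infinite) (hS' : S'.Infinite),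
  (S \ S').Infinite → (X (jdl b S hS) ≃L[ℝ] X (jdl b S' hS')) → False

/-- isomorphism on the Grothendieck spaces `c_{0,I}` with a property `P` of the ideal `I` -/
def isoSetoid (P : Idl → Prop) : Setoid {I : Idl // P I ∧ Groth (X I)} where
  r I J := Nonempty (X I.1 ≃L[ℝ] X J.1)
  iseqv := ⟨fun _ => ⟨ContinuousLinearEquiv.refl ℝ _⟩, fun ⟨e⟩ => ⟨e.symm⟩,
    fun ⟨e⟩ ⟨f⟩ => ⟨e.trans f⟩⟩

/-- The final statement. -/
def FinalStm : Prop := Cardinal.mk (Quotient (isoSetoid AnalyticIdeal)) = Cardinal.continuum ∧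
  Cardinal.mk (Quotient (isoSetoid BorelIdeal)) = Cardinal.continuum

end Pool.Agent.R464.GB
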