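import Pool.Agent.R464.GI.Exh
import Pool.Agent.R464.GB.Defs

/-!
# Weak* null sequences on `c_{0,I}` have uniformly exhaustive moduli if `I` has `PprI`
(the proof of Pool/Agent/R464/GI/Exh.lean, for a general ideal)
-/

set_option autoImplicit false

open Filter Topology Set

namespace Pool.Agent.R464.GB

open Pool.Agent.R464.GI

open Pool.Agent.R464.GI.ExhAux in
theorem exhGen (hR : RosStm) (I : Idl) (hP : PprI I) :
    ∀ φ : ℕ → StrongDual ℝ (X I), (∀ x, Tendsto (fun n => φ n x) atTop (𝓝 0)) →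
    ∀ M : ℝ, (∀ n, ‖φ n‖ ≤ M) → ∀ N : ℕ → (ℕ → ℝ) → ℝ, (∀ n, IsMod I (φ n) (N n)) →
    Exh (fun n A => N n (ind A)) := by
  intro φ hφ M hM N hN D hD ε hε
  by_contra hcon
  push Not at hcon
  have hM0 : 0 ≤ M := le_trans (norm_nonneg _) (hM 0)
  have hfa : ∀ n, FA M (fun A => N n (ind A)) := fun n => fa (hM n) (hN n)
  have hbig : ∀ K, ∃ k n, K < k ∧ K < n ∧ ε < N n (ind (D k)) := by
    intro K
    have hfin : (⋃ n ∈ Set.Iic K, {k | ε < N n (ind (D k))}).Finite :=
      Set.Finite.biUnion (Set.finite_Iic K) fun n _ => fin_big (hfa n) hD hε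
    obtain ⟨b, hb⟩ := hfin.bddAbove
    obtain ⟨k, hk, n, hn⟩ := hcon (max K b + 1)
    refine ⟨k, n, ?_, ?_, hn⟩
    · have := le_max_left K b
      omega
    · by_contra hle
      have h1 : k ∈ (⋃ n ∈ Set.Iic K, {k | ε < N n (ind (D k))}) := by
        rw [Set.mem_iUnion₂]
        exact ⟨n, not_lt.1 hle, hn⟩
      have h2 := hb h1
      have := le_max_right K b
      omega
  obtain ⟨a, b, ha, hb, hab⟩ := seqs (fun n k => ε < N n (ind (D k))) hbig
  -- the elements x i
  have hx : ∀ i, ∃ x : X I, (∀ n, |x.1 n| ≤ ind (D (b i)) n) ∧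
      N (a i) (ind (D (b i))) - ε / 2 ≤ φ (a i) x := fun i =>
    (hN (a i)).approx _ (good_ind _) (ε / 2) (half_pos hε)
  choose x hx1 hx2 using hx
  set θ : ℝ := ε / (4 * (M + 1)) with hθ
  have hθ0 : 0 < θ := by positivity
  have hθM : M * θ ≤ ε / 4 := by
    rw [hθ, mul_div_assoc', div_le_div_iff₀ (by positivity) (by norm_num)]
    nlinarith
  have hB1 : ∀ i, {n | θ ≤ |(x i).1 n|} ⊆ D (b i) := by
    intro i n hn
    by_contra hne
    have h1 := hx1 i n
    rw [ind_neg hne] at h1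
    have h2 : θ ≤ |(x i).1 n| := hn
    linarith
  have hB2 : ∀ i, ε / 4 ≤ N (a i) (ind {n | θ ≤ |(x i).1 n|}) := by
    intro i
    have hg1 : Good (fun _ : ℕ => θ) := ⟨fun _ => hθ0.le, θ, fun _ => le_rfl⟩
    have hg2 : Good (fun n => ind {n | θ ≤ |(x i).1 n|} n + θ) :=
      ⟨fun n => add_nonneg ((good_ind _).1 n) hθ0.le, 1 + θ, fun n => by
        have := ind_le_one {n | θ ≤ |(x i).1 n|} n
        change ind {n | θ ≤ |(x i).1 n|} n + θ ≤ 1 + θ
        linarith⟩
    have h1 := (hN (a i)).le (x i)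
    have h2 : N (a i) (fun n => |(x i).1 n|) ≤
        N (a i) (fun n => ind {n | θ ≤ |(x i).1 n|} n + θ) := by
      refine mono (hN (a i)).pos (good_abs (x i)) hg2 fun n => ?_
      by_cases hn : θ ≤ |(x i).1 n|
      · rw [ind_pos (show n ∈ {n | θ ≤ |(x i).1 n|} from hn)]
        have := (hx1 i n).trans (ind_le_one _ n)
        linarith
      · rw [ind_neg (show n ∉ {n | θ ≤ |(x i).1 n|} from hn)]
        linarith [not_le.1 hn]
    have h3 := (hN (a i)).pos.add _ _ (good_ind {n | θ ≤ |(x i).1 n|}) hg1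
    have h4 := (hN (a i)).pos.le _ hg1 θ (fun _ => le_rfl)
    have h5 : ‖φ (a i)‖ * θ ≤ M * θ := mul_le_mul_of_nonneg_right (hM _) hθ0.le
    have h6 := hab i
    have h7 := hx2 i
    have h8 := le_abs_self (φ (a i) (x i))
    rw [h3] at h2
    linarith
  obtain ⟨f, B', hf, hB', hmB', hUB'⟩ := hP M (fun i A => N (a i) (ind A))
    (fun i => hfa (a i)) (fun i => {n | θ ≤ |(x i).1 n|})
    (fun i => mem_ideal (x i) θ hθ0)
    (fun i j hij => (hD _ _ (fun h => hij (hb.injective h))).mono (hB1 i) (hB1 j))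
    (ε / 4) (by linarith) hB2
  have hdB' : ∀ i j, i ≠ j → Disjoint (B' i) (B' j) := by
    intro i j hij
    refine (hD _ _ (fun h => hij (hf.injective (hb.injective h)))).mono
      ((hB' i).trans (hB1 (f i))) ((hB' j).trans (hB1 (f j)))
  obtain ⟨g, hg, hmg⟩ := hR M (fun k A => N (a (f k)) (ind A)) (fun k => hfa (a (f k))) B' hdB'
    (ε / 64) (by linarith)
  -- the elements y k
  have hy : ∀ k, ∃ y : X I, (∀ n, |y.1 n| ≤ ind (B' (g k)) n) ∧
      N (a (f (g k))) (ind (B' (g k))) - ε / 32 ≤ φ (a (f (g k))) y := fun k =>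
    (hN (a (f (g k)))).approx _ (good_ind _) (ε / 32) (by linarith)
  choose y hy1 hy2 using hy
  have hy0 : ∀ k n, n ∉ B' (g k) → (y k).1 n = 0 := by
    intro k n hn
    have := hy1 k n
    rw [ind_neg hn] at this
    exact abs_eq_zero.1 (le_antisymm this (abs_nonneg _))
  classical
  let z : ℕ → ℝ := fun n => if h : ∃ k, n ∈ B' (g k) then (y h.choose).1 n else 0
  have hz1 : ∀ k n, n ∈ B' (g k) → z n = (y k).1 n := by
    intro k n hn
    have hex : ∃ k, n ∈ B' (g k) := ⟨k, hn⟩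
    have h1 : z n = (y hex.choose).1 n := dif_pos hex
    have h2 : hex.choose = k := by
      by_contra hne
      exact Set.disjoint_left.1 (hdB' _ _ (fun h => hne (hg.injective h))) hex.choose_spec hn
    rw [h1, h2]
  have hz0 : ∀ n, (∀ k, n ∉ B' (g k)) → z n = 0 := by
    intro n hn
    exact dif_neg (fun ⟨k, hk⟩ => hn k hk)
  have hz2 : ∀ n, |z n| ≤ 1 := by
    intro n
    by_cases h : ∃ k, n ∈ B' (g k)
    · obtain ⟨k, hk⟩ := h
      rw [hz1 k n hk]
      exact (hy1 k n).trans (ind_le_one _ n)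
    · rw [hz0 n (fun k hk => h ⟨k, hk⟩)]
      simp
  obtain ⟨Y, hY⟩ := exists_X I z 1 hz2 (by
    intro δ hδ
    refine I.2.sub _ hUB' _ ?_
    intro n hn
    by_contra hne
    have h1 : z n = 0 := hz0 n (fun k hk => hne (Set.mem_iUnion.2 ⟨_, hk⟩))
    have h2 : δ ≤ |z n| := hn
    rw [h1, abs_zero] at h2
    linarith)
  have hkey : ∀ k, ε / 64 ≤ φ (a (f (g k))) Y := by
    intro k
    have h1 := (hN (a (f (g k)))).le (Y - y k)
    have h2 : N (a (f (g k))) (fun n => |(Y - y k).1 n|) ≤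
        N (a (f (g k))) (ind (⋃ j ∈ {j : ℕ | j ≠ k}, B' (g j))) := by
      refine mono (hN _).pos (good_abs _) (good_ind _) fun n => ?_
      rw [sub_val, hY]
      by_cases hn : n ∈ B' (g k)
      · rw [hz1 k n hn, sub_self, abs_zero]
        exact (good_ind _).1 n
      · rw [hy0 k n hn, sub_zero]
        by_cases h : ∃ j, n ∈ B' (g j)
        · obtain ⟨j, hj⟩ := h
          have hjk : j ≠ k := by
            rintro rfl
            exact hn hj
          rw [ind_pos (Set.mem_iUnion₂.2 ⟨j, hjk, hj⟩)]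
          exact hz2 n
        · rw [hz0 n (fun j hj => h ⟨j, hj⟩), abs_zero]
          exact (good_ind _).1 n
    have h3 := hmg k
    have h4 := hmB' (g k)
    have h5 := hy2 k
    have h6 : φ (a (f (g k))) (Y - y k) = φ (a (f (g k))) Y - φ (a (f (g k))) (y k) :=
      map_sub _ _ _
    have h7 := neg_abs_le (φ (a (f (g k))) (Y - y k))
    have h3' : N (a (f (g k))) (ind (⋃ j ∈ {j : ℕ | j ≠ k}, B' (g j))) ≤ ε / 64 := h3
    have h4' : ε / 4 / 4 ≤ N (a (f (g k))) (ind (B' (g k))) := h4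
    linarith
  have hlim : Tendsto (fun k => φ (a (f (g k))) Y) atTop (𝓝 0) :=
    (hφ Y).comp ((ha.comp (hf.comp hg)).tendsto_atTop)
  have hfinal : ε / 64 ≤ 0 := ge_of_tendsto' hlim hkey
  linarith

end Pool.Agent.R464.GB
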