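import Pool.Agent.R464.GB.Defs
import Pool.Agent.R464.GI.Final

/-!
# Project GB: final cardinal arithmetic
-/

set_option autoImplicit false

open Filter Topology Set Cardinal

namespace Pool.Agent.R464.GB

open Pool.Agent.R464.GI

/-- an almost disjoint family of infinite sets -/
def ad (x : ℕ → Bool) : Set ℕ :=
  Set.range (fun n : ℕ => Encodable.encode ((List.range n).map x))

theorem ad_inj (x : ℕ → Bool) :
    Function.Injective (fun n : ℕ => Encodable.encode ((List.range n).map x)) := by
  intro m n h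
  have h1 := Encodable.encode_injective h
  have h2 := congrArg List.length h1
  simpa using h2

theorem ad_infinite (x : ℕ → Bool) : (ad x).Infinite :=
  Set.infinite_range_of_injective (ad_inj x)

theorem ad_inter (x y : ℕ → Bool) (h : x ≠ y) : (ad x ∩ ad y).Finite := by
  obtain ⟨d, hd⟩ := Function.ne_iff.1 h
  refine ((Set.finite_Iic d).image
    (fun n : ℕ => Encodable.encode ((List.range n).map x))).subset ?_
  rintro _ ⟨⟨n, rfl⟩, ⟨m, hm⟩⟩
  refine ⟨n, ?_, rfl⟩
  by_contra hn
  have hn' : d < n := not_le.1 hn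
  have h1 := Encodable.encode_injective hm
  have h2 := congrArg List.length h1
  have h3 : m = n := by simpa using h2
  subst h3
  have h4 : ∀ i ∈ List.range m, y i = x i := List.map_inj_left.1 h1
  exact hd (h4 d (List.mem_range.2 hn')).symm

theorem ad_diff (x y : ℕ → Bool) (h : x ≠ y) : (ad x \ ad y).Infinite := by
  intro hf
  refine ad_infinite x ((hf.union (ad_inter x y h)).subset ?_)
  intro p hp
  by_cases hy : p ∈ ad y
  · exact Or.inr ⟨hp, hy⟩
  · exact Or.inl ⟨hp, hy⟩

theorem final (hb : BlkStm) (hBor : BorStm) (hC : CntStm) (hN : NisStm)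
    (hG : ∀ (b : Blk) (S : Set ℕ) (hS : S.Infinite), Groth (X (jdl b S hS))) : FinalStm := by
  obtain ⟨b⟩ := hb
  have key : ∀ P : Idl → Prop, (∀ I, P I → AnalyticIdeal I) →
      (∀ (S : Set ℕ) (hS : S.Infinite), P (jdl b S hS)) →
      Cardinal.mk (Quotient (isoSetoid P)) = Cardinal.continuum := by
    intro P hP1 hP2
    refine le_antisymm ?_ ?_
    · refine Cardinal.mk_quotient_le.trans (le_trans ?_ hC.2)
      refine Cardinal.mk_le_of_injective (f := fun I : {I : Idl // P I ∧ Groth (X I)} =>
        (⟨I.1, hP1 I.1 I.2.1⟩ : {I : Idl // AnalyticIdeal I})) ?_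
      intro I J h
      exact Subtype.ext (congrArg (fun z : {I : Idl // AnalyticIdeal I} => z.1) h)
    · have h1 : Cardinal.mk (ℕ → Bool) = Cardinal.continuum := by simp
      rw [← h1]
      refine Cardinal.mk_le_of_injective (f := fun x : ℕ → Bool =>
        (Quotient.mk (isoSetoid P) ⟨jdl b (ad x) (ad_infinite x), hP2 _ _, hG b _ _⟩)) ?_
      intro x y hxy
      by_contra hne
      obtain ⟨e⟩ := Quotient.exact hxy
      exact hN b (ad x) (ad y) (ad_infinite x) (ad_infinite y) (ad_diff x y hne) e
  exact ⟨key _ (fun _ h => h) (fun S hS => hC.1 _ (hBor b S hS)),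
    key _ (fun I h => hC.1 I h) (fun S hS => hBor b S hS)⟩

end Pool.Agent.R464.GB
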