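import Pool.Agent.R464.GB.Defs

/-!
GB-NIS (MP_7e1ced_an): the spaces `c_{0,J_S}` and `c_{0,J_{S'}}` are not isomorphic when
`S \ S'` is infinite.
-/

set_option autoImplicit false

open Filter Topology Set

namespace Pool.Agent.R464.GB

open Pool.Agent.R464.GI

namespace Nis

lemma sum_val {I : Idl} (F : Finset ℕ) (x : ℕ → X I) (q : ℕ) :
    (∑ k ∈ F, x k).1 q = ∑ k ∈ F, (x k).1 q := by
  classical
  induction F using Finset.induction_on with
  | empty => simp [zero_val]
  | insert a F ha ih => rw [Finset.sum_insert ha, Finset.sum_insert ha, add_val, ih]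

lemma sum_abs_le {b : Blk} {I J : Idl} (T : X I →L[ℝ] X J) (d : ℕ → X I)
    (hd : ∀ n p, (d n).1 p = ind (b.D n) p) (F : Finset ℕ) (p : ℕ) :
    ∑ k ∈ F, |(T (d k)).1 p| ≤ ‖T‖ := by
  classical
  set s : ℕ → ℝ := fun k => (SignType.sign ((T (d k)).1 p) : ℝ) with hs
  have hs1 : ∀ k, |s k| ≤ 1 := by
    intro k
    rw [hs]
    rcases lt_trichotomy ((T (d k)).1 p) 0 with h | h | h
    · simp [sign_neg h]
    · simp [h]
    · simp [sign_pos h]
  have hs2 : ∀ k, s k * (T (d k)).1 p = |(T (d k)).1 p| := by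
    intro k
    exact sign_mul_self _
  set z : X I := ∑ k ∈ F, s k • d k with hz
  have hz1 : ‖z‖ ≤ 1 := by
    apply norm_le_of z 1 zero_le_one
    intro q
    rw [hz, sum_val]
    by_cases hq : ∃ k ∈ F, q ∈ b.D k
    · obtain ⟨k, hkF, hk⟩ := hq
      rw [Finset.sum_eq_single k]
      · rw [smul_val, hd, ind, Set.indicator_of_mem (by simpa using hk), mul_one]
        exact hs1 k
      · intro j _ hjk
        rw [smul_val, hd, ind, Set.indicator_of_notMem, mul_zero]
        intro hj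
        exact Finset.disjoint_left.1 (b.disj j k hjk) (by simpa using hj) hk
      · intro h; exact absurd hkF h
    · push Not at hq
      rw [Finset.sum_eq_zero]
      · simp
      · intro k hk
        rw [smul_val, hd, ind, Set.indicator_of_notMem, mul_zero]
        simpa using hq k hk
  have h1 : ∑ k ∈ F, |(T (d k)).1 p| = (T z).1 p := by
    rw [hz, map_sum, sum_val]
    apply Finset.sum_congr rfl
    intro k _
    rw [map_smul, smul_val, hs2]
  rw [h1]
  calc (T z).1 p ≤ |(T z).1 p| := le_abs_self _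
    _ ≤ ‖T z‖ := abs_le_norm _ _
    _ ≤ ‖T‖ * ‖z‖ := T.le_opNorm z
    _ ≤ ‖T‖ * 1 := by gcongr
    _ = ‖T‖ := mul_one _

end Nis

theorem nisStm (h1 : A1Stm) (h2 : A2Stm) (h3 : BStm) : NisStm := by
  classical
  intro b S S' hS hS' hinf e
  have hd0 : ∀ n, ∃ y : X (jdl b S hS), ∀ p, y.1 p = ind (b.D n) p := by
    intro n
    refine exists_supp (I := jdl b S hS) (↑(b.D n)) ?_ (ind (b.D n)) 1 ?_ ?_
    · exact (jdl b S hS).2.fin _ (Finset.finite_toSet _)
    · intro p
      unfold ind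
      by_cases hp : p ∈ (↑(b.D n) : Set ℕ)
      · rw [Set.indicator_of_mem hp]; simp
      · rw [Set.indicator_of_notMem hp]; simp
    · intro p hp
      unfold ind
      exact Set.indicator_of_notMem hp _
  choose d hd using hd0
  set T : X (jdl b S hS) →L[ℝ] X (jdl b S' hS') :=
    (e : X (jdl b S hS) →L[ℝ] X (jdl b S' hS')) with hT
  set R : X (jdl b S' hS') →L[ℝ] X (jdl b S hS) :=
    (e.symm : X (jdl b S' hS') →L[ℝ] X (jdl b S hS)) with hR
  have hRT : ∀ x, R (T x) = x := fun x => e.symm_apply_apply x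
  have hsum : ∀ (F : Finset ℕ) (p : ℕ), ∑ k ∈ F, |(T (d k)).1 p| ≤ ‖T‖ :=
    fun F p => Nis.sum_abs_le (b := b) T d hd F p
  have hv0 : ∀ n, ∃ y : X (jdl b S' hS'), ∀ p,
      y.1 p = if p ∈ W b n then 0 else (T (d n)).1 p := by
    intro n
    apply exists_dom (T (d n))
    intro p
    by_cases hp : p ∈ W b n
    · rw [if_pos hp, abs_zero]; exact abs_nonneg _
    · rw [if_neg hp]
  have hw0 : ∀ n, ∃ y : X (jdl b S' hS'), ∀ p,
      y.1 p = if p ∈ W b n then (T (d n)).1 p else 0 := by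
    intro n
    apply exists_dom (T (d n))
    intro p
    by_cases hp : p ∈ W b n
    · rw [if_pos hp]
    · rw [if_neg hp, abs_zero]; exact abs_nonneg _
  choose v hv using hv0
  choose w hw using hw0
  have hvw : ∀ n, T (d n) = v n + w n := by
    intro n
    apply X.ext
    intro p
    rw [add_val, hv, hw]
    by_cases hp : p ∈ W b n
    · rw [if_pos hp, if_pos hp, zero_add]
    · rw [if_neg hp, if_neg hp, add_zero]
  have hone : ∀ n, ∀ p ∈ b.D n, (R (v n)).1 p + (R (w n)).1 p = 1 := by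
    intro n p hp
    have h4 : R (v n) + R (w n) = d n := by
      rw [← map_add, ← hvw, hRT]
    rw [← add_val, h4, hd, ind, Set.indicator_of_mem (by simpa using hp)]
  have hor : ∀ n, ¬ Cv b n {p | 1 / 2 ≤ |(R (v n)).1 p|} ((b.r n : ℝ) / 4) ∨
      ¬ Cv b n {p | 1 / 2 ≤ |(R (w n)).1 p|} ((b.r n : ℝ) / 4) := by
    intro n
    by_contra hcon
    push Not at hcon
    obtain ⟨hc1, hc2⟩ := hcon
    apply not_Cv_univ b n
    refine (hc1.union hc2).mono ?_ ?_
    · intro p hp _
      have h5 := hone n p hp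
      by_cases h6 : 1 / 2 ≤ |(R (v n)).1 p|
      · left; exact h6
      · right
        push Not at h6
        show 1 / 2 ≤ |(R (w n)).1 p|
        have h7 := (abs_lt.1 h6).2
        have h8 : 1 / 2 ≤ (R (w n)).1 p := by linarith
        exact h8.trans (le_abs_self _)
    · linarith
  have hsplit : ({n | n ∈ S \ S' ∧ ¬ Cv b n {p | 1 / 2 ≤ |(R (v n)).1 p|} ((b.r n : ℝ) / 4)} ∪
      {n | n ∈ S \ S' ∧ ¬ Cv b n {p | 1 / 2 ≤ |(R (w n)).1 p|} ((b.r n : ℝ) / 4)}).Infinite := by
    refine hinf.mono ?_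
    intro n hn
    rcases hor n with h | h
    · left; exact ⟨hn, h⟩
    · right; exact ⟨hn, h⟩
  rcases Set.infinite_union.1 hsplit with hA | hA
  · refine h2 b S S' hS hS' R (fun n => T (d n)) v ‖T‖ hsum
      (h1 b S S' hS hS' T d hd) ?_ ?_ _ hA ?_ ?_
    · intro n p hp
      rw [hv, if_neg hp]
    · intro n p hp
      rw [hv, if_pos hp]
    · rintro n ⟨hn, _⟩
      exact ⟨hn.1, hn.2⟩
    · rintro n ⟨_, hn⟩
      exact hn
  · refine h3 b S S' hS hS' R (fun n => T (d n)) w ‖T‖ hsum ?_ ?_ _ hA ?_ ?_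
    · intro n p hp
      rw [hw, if_pos hp]
    · intro n p hp
      rw [hw, if_neg hp]
    · rintro n ⟨hn, _⟩
      exact hn.1
    · rintro n ⟨_, hn⟩
      exact hn

end Pool.Agent.R464.GB
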