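import Pool.Agent.R464.GB.Defs

/-! Piece GB-NOS: no sums. -/

set_option autoImplicit false

open Filter Topology Set

namespace Pool.Agent.R464.GB

open Pool.Agent.R464.GI

namespace NosAux

/-- evaluation -/
def ev (I : Idl) (p : ℕ) : X I →ₗ[ℝ] ℝ where
  toFun x := x.1 p
  map_add' x y := add_val x y p
  map_smul' c x := smul_val c x p

theorem ev_apply (I : Idl) (p : ℕ) (x : X I) : ev I p x = x.1 p := rfl

theorem sum_val {I : Idl} (F : Finset ℕ) (x : ℕ → X I) (p : ℕ) :
    (∑ k ∈ F, x k).1 p = ∑ k ∈ F, (x k).1 p := by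
  rw [← ev_apply, map_sum]
  rfl

theorem sum_bound {J I : Idl} (R : X J →L[ℝ] X I) (x : ℕ → X J) (C : ℝ)
    (hC : ∀ (F : Finset ℕ) (p : ℕ), ∑ k ∈ F, |(x k).1 p| ≤ C) (F : Finset ℕ) (p : ℕ) :
    ∑ k ∈ F, |(R (x k)).1 p| ≤ ‖R‖ * C := by
  have hC0 : 0 ≤ C := by simpa using hC ∅ 0
  obtain ⟨s, hs⟩ : ∃ s : ℕ → ℝ, ∀ k, |s k| ≤ 1 ∧ s k * (R (x k)).1 p = |(R (x k)).1 p| := by
    refine ⟨fun k => if 0 ≤ (R (x k)).1 p then 1 else -1, fun k => ?_⟩
    by_cases h : 0 ≤ (R (x k)).1 p
    · simp only [if_pos h]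
      exact ⟨by simp, by rw [one_mul, abs_of_nonneg h]⟩
    · simp only [if_neg h]
      exact ⟨by simp, by rw [neg_one_mul, abs_of_neg (not_le.1 h)]⟩
  have h1 : ‖∑ k ∈ F, s k • x k‖ ≤ C := by
    refine norm_le_of _ C hC0 fun q => ?_
    rw [sum_val]
    refine (Finset.abs_sum_le_sum_abs _ _).trans
      (le_trans (Finset.sum_le_sum fun k _ => ?_) (hC F q))
    rw [smul_val, abs_mul]
    exact mul_le_of_le_one_left (abs_nonneg _) (hs k).1
  have h2 : (R (∑ k ∈ F, s k • x k)).1 p = ∑ k ∈ F, |(R (x k)).1 p| := by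
    rw [map_sum, sum_val]
    refine Finset.sum_congr rfl fun k _ => ?_
    rw [map_smul, smul_val, (hs k).2]
  calc ∑ k ∈ F, |(R (x k)).1 p| = (R (∑ k ∈ F, s k • x k)).1 p := h2.symm
    _ ≤ |(R (∑ k ∈ F, s k • x k)).1 p| := le_abs_self _
    _ ≤ ‖R (∑ k ∈ F, s k • x k)‖ := abs_le_norm _ _
    _ ≤ ‖R‖ * ‖∑ k ∈ F, s k • x k‖ := R.le_opNorm _
    _ ≤ ‖R‖ * C := mul_le_mul_of_nonneg_left h1 (norm_nonneg _)

/-- the growth of a subsequence -/
theorem exists_seq (Φ : ℕ → ℕ → ℕ) : ∃ k : ℕ → ℕ, StrictMono k ∧ ∀ i, Φ i (k i) ≤ k (i + 1) := by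
  let k : ℕ → ℕ := fun i => Nat.rec (motive := fun _ => ℕ) 0 (fun i a => max (a + 1) (Φ i a)) i
  refine ⟨k, strictMono_nat_of_lt_succ fun i => ?_, fun i => ?_⟩
  · exact lt_of_lt_of_le (Nat.lt_succ_self _) (le_max_left _ _)
  · exact le_max_right _ _

/-- the estimate of one term -/
theorem term_le {z : ℕ → ℝ} {k : ℕ → ℕ} (hk : StrictMono k) {M : Set ℕ} (hM : M ⊆ Set.range k)
    {i : ℕ} (hi : k i ∈ M) {a e : ℝ} (ha : HasSum (M.indicator z) a)
    (he : ∀ F : Finset ℕ, (∀ j ∈ F, k (i + 1) ≤ j) → ∑ j ∈ F, |z j| ≤ e) :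
    |z (k i)| ≤ |a| + ∑ i' ∈ Finset.range i, |z (k i')| + e := by
  have hle : ∀ j, |M.indicator z j| ≤ |z j| := by
    intro j
    by_cases hj : j ∈ M
    · rw [indicator_of_mem hj]
    · rw [indicator_of_notMem hj, abs_zero]
      exact abs_nonneg _
  have hne : ∀ j, M.indicator z j ≠ 0 → j ∈ M := by
    intro j hj
    by_contra h
    exact hj (indicator_of_notMem h z)
  have key : ∀ F : Finset ℕ, k i ∉ F →
      ∑ j ∈ F, |M.indicator z j| ≤ ∑ i' ∈ Finset.range i, |z (k i')| + e := by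
    intro F hF
    rw [← Finset.sum_filter_add_sum_filter_not F (fun j => j < k i)]
    refine add_le_add ?_ ?_
    · have h1 : ∑ i' ∈ Finset.range i, |z (k i')| = ∑ j ∈ (Finset.range i).image k, |z j| :=
        (Finset.sum_image (f := fun j => |z j|) (g := k) fun _ _ _ _ h => hk.injective h).symm
      rw [h1]
      calc ∑ j ∈ F.filter (fun j => j < k i), |M.indicator z j|
          = ∑ j ∈ (F.filter (fun j => j < k i)).filter (fun j => |M.indicator z j| ≠ 0),
              |M.indicator z j| := (Finset.sum_filter_ne_zero _).symm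
        _ ≤ ∑ j ∈ (Finset.range i).image k, |M.indicator z j| := by
            refine Finset.sum_le_sum_of_subset_of_nonneg ?_ fun _ _ _ => abs_nonneg _
            intro j hj
            rw [Finset.mem_filter, Finset.mem_filter] at hj
            obtain ⟨i', rfl⟩ := hM (hne j (fun h => hj.2 (by rw [h, abs_zero])))
            rw [Finset.mem_image]
            exact ⟨i', Finset.mem_range.2 (hk.lt_iff_lt.1 hj.1.2), rfl⟩
        _ ≤ ∑ j ∈ (Finset.range i).image k, |z j| := Finset.sum_le_sum fun j _ => hle j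
    · calc ∑ j ∈ F.filter (fun j => ¬ j < k i), |M.indicator z j|
          = ∑ j ∈ (F.filter (fun j => ¬ j < k i)).filter (fun j => |M.indicator z j| ≠ 0),
              |M.indicator z j| := (Finset.sum_filter_ne_zero _).symm
        _ ≤ ∑ j ∈ (F.filter (fun j => ¬ j < k i)).filter (fun j => |M.indicator z j| ≠ 0),
              |z j| := Finset.sum_le_sum fun j _ => hle j
        _ ≤ e := by
            refine he _ fun j hj => ?_
            rw [Finset.mem_filter, Finset.mem_filter] at hj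
            obtain ⟨i', rfl⟩ := hM (hne j (fun h => hj.2 (by rw [h, abs_zero])))
            refine hk.le_iff_le.2 ?_
            have h2 : i ≤ i' := hk.le_iff_le.1 (not_lt.1 hj.1.2)
            rcases h2.lt_or_eq with h3 | h3
            · exact h3
            · rw [← h3] at hj
              exact absurd hj.1.1 hF
  have hzi : M.indicator z (k i) = z (k i) := indicator_of_mem hi z
  have h5 : |z (k i)| - (∑ i' ∈ Finset.range i, |z (k i')| + e) ≤ |a| := by
    refine ge_of_tendsto (Tendsto.abs ha) ?_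
    filter_upwards [eventually_ge_atTop ({k i} : Finset ℕ)] with F hF
    have hmem : k i ∈ F := hF (Finset.mem_singleton_self _)
    rw [← Finset.add_sum_erase F _ hmem, hzi]
    have h3 := key (F.erase (k i)) (Finset.notMem_erase _ _)
    have h4 := Finset.abs_sum_le_sum_abs (fun j => M.indicator z j) (F.erase (k i))
    have h6 := abs_sub_abs_le_abs_sub (z (k i)) (-∑ j ∈ F.erase (k i), M.indicator z j)
    rw [abs_neg, sub_neg_eq_add] at h6
    linarith
  linarith

end NosAux

open NosAux in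
theorem nosStm (hA : AdfStm) : NosStm := by
  intro b S hS J R x m c δ C hm hmS hc hδ hnc hC hsum
  have hC0 : 0 ≤ C := by simpa using hC ∅ 0
  have hB := sum_bound R x C hC
  have hsz : ∀ p, Summable (fun k => |(R (x k)).1 p|) := fun p =>
    summable_of_sum_le (fun _ => abs_nonneg _) (fun F => hB F p)
  have hsz' : ∀ p, Summable (fun k => (R (x k)).1 p) := fun p => (hsz p).of_abs
  have hsi : ∀ (M : Set ℕ) p, Summable (M.indicator (fun k => (R (x k)).1 p)) :=
    fun M p => (hsz' p).indicator M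
  choose y hy using hsum
  -- the function `g`
  have hyn : ∀ M, ‖y M‖ ≤ C := by
    intro M
    refine norm_le_of _ C hC0 fun p => ?_
    refine le_of_tendsto (Tendsto.abs (hy M p)) (Filter.Eventually.of_forall fun F => ?_)
    refine (Finset.abs_sum_le_sum_abs _ _).trans
      (le_trans (Finset.sum_le_sum fun k _ => ?_) (hC F p))
    by_cases hk : k ∈ M
    · rw [indicator_of_mem hk]
    · rw [indicator_of_notMem hk, abs_zero]
      exact abs_nonneg _
  obtain ⟨M₀, hM₀⟩ : ∃ M₀ : ℕ → ℕ → ℕ, ∀ i j n, M₀ i j ≤ n → n ∈ S →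
      Cv b n {p | c * (1 / 2) ^ (i + 3) ≤ |(R (x j)).1 p|} (δ * (1 / 2) ^ (i + 2) * b.r n) := by
    have h1 : ∀ i j, ∃ N, ∀ n, N ≤ n → n ∈ S →
        Cv b n {p | c * (1 / 2) ^ (i + 3) ≤ |(R (x j)).1 p|} (δ * (1 / 2) ^ (i + 2) * b.r n) :=
      fun i j => mem_ideal (R (x j)) (c * (1 / 2) ^ (i + 3)) (by positivity)
        (δ * (1 / 2) ^ (i + 2)) (by positivity)
    choose N hN using h1
    exact ⟨N, hN⟩
  obtain ⟨N₀, hN₀⟩ : ∃ N₀ : ℕ → ℕ, ∀ j, ∀ p ∈ b.D (m j), ∀ F : Finset ℕ,
      (∀ l ∈ F, N₀ j ≤ l) → ∑ l ∈ F, |(R (x l)).1 p| ≤ c / 8 := by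
    have h1 : ∀ p, ∃ N, ∀ F : Finset ℕ, (∀ l ∈ F, N ≤ l) →
        ∑ l ∈ F, |(R (x l)).1 p| ≤ c / 8 := by
      intro p
      obtain ⟨s, hs⟩ := (summable_iff_vanishing_norm.1 (hsz p)) (c / 8) (by positivity)
      refine ⟨s.sup id + 1, fun F hF => ?_⟩
      have h2 : Disjoint F s := by
        rw [Finset.disjoint_left]
        intro l hl hls
        have h3 : l ≤ s.sup id := Finset.le_sup (f := id) hls
        have h4 := hF l hl
        omega
      have h3 := hs F h2
      rw [Real.norm_eq_abs] at h3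
      exact (le_abs_self _).trans h3.le
    choose N hN using h1
    refine ⟨fun j => (b.D (m j)).sup N, fun j p hp F hF => hN p F fun l hl => ?_⟩
    exact (Finset.le_sup (f := N) hp).trans (hF l hl)
  obtain ⟨k, hk, hΦ⟩ := exists_seq (fun i j => max (M₀ i j) (N₀ j))
  obtain ⟨g, hgdef⟩ : ∃ g : ℕ → Set ℕ → ℝ, ∀ p M, g p M =
      (R (y M)).1 p - ∑' j, M.indicator (fun k => (R (x k)).1 p) j := ⟨_, fun _ _ => rfl⟩
  have g1 : ∀ p A B, Disjoint A B → g p (A ∪ B) = g p A + g p B := by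
    intro p A B hAB
    have h1 : y (A ∪ B) = y A + y B := by
      refine X.ext fun q => ?_
      rw [add_val]
      have h2 := (hy A q).add (hy B q)
      have h3 := hy (A ∪ B) q
      rw [Set.indicator_union_of_disjoint hAB] at h3
      exact h3.unique h2
    rw [hgdef, hgdef, hgdef]
    rw [h1, map_add, add_val, Set.indicator_union_of_disjoint hAB, (hsi A p).tsum_add (hsi B p)]
    ring
  have g2 : ∀ p A, |g p A| ≤ ‖R‖ * C + ‖R‖ * C := by
    intro p A
    have h1 : |(R (y A)).1 p| ≤ ‖R‖ * C :=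
      (abs_le_norm _ _).trans ((R.le_opNorm _).trans
        (mul_le_mul_of_nonneg_left (hyn A) (norm_nonneg _)))
    have h2 : |∑' j, A.indicator (fun k => (R (x k)).1 p) j| ≤ ‖R‖ * C := by
      refine le_of_tendsto (Tendsto.abs (hsi A p).hasSum) (Filter.Eventually.of_forall fun F => ?_)
      refine (Finset.abs_sum_le_sum_abs _ _).trans
        (le_trans (Finset.sum_le_sum fun k _ => ?_) (hB F p))
      by_cases hk : k ∈ A
      · rw [indicator_of_mem hk]
      · rw [indicator_of_notMem hk, abs_zero]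
        exact abs_nonneg _
    rw [hgdef]
    exact (abs_sub _ _).trans (add_le_add h1 h2)
  have g3 : ∀ p (A : Set ℕ), A.Finite → g p A = 0 := by
    intro p A hAf
    have h0 : ∀ (z : ℕ → ℝ), HasSum (A.indicator z) (∑ k ∈ hAf.toFinset, z k) := by
      intro z
      have h2 : ∑ k ∈ hAf.toFinset, z k = ∑ k ∈ hAf.toFinset, A.indicator z k := by
        refine Finset.sum_congr rfl fun k hk => ?_
        rw [indicator_of_mem (hAf.mem_toFinset.1 hk)]
      rw [h2]
      refine hasSum_sum_of_ne_finset_zero fun k hk => ?_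
      exact indicator_of_notMem (fun h => hk (hAf.mem_toFinset.2 h)) z
    have h1 : y A = ∑ k ∈ hAf.toFinset, x k := by
      refine X.ext fun q => ?_
      rw [sum_val]
      exact (hy A q).unique (h0 _)
    rw [hgdef]
    rw [h1, map_sum, sum_val, (h0 _).tsum_eq, sub_self]
  obtain ⟨M, hMk, hMinf, hg⟩ := hA (fun _ => ‖R‖ * C + ‖R‖ * C) g g1 g2 g3
    (Set.range k) (Set.infinite_range_of_injective hk.injective)
  obtain ⟨N, hN⟩ := mem_ideal (R (y M)) (c / 4) (by positivity) (δ / 2) (by positivity)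
  obtain ⟨j, hjM, hj⟩ := hMinf.exists_gt N
  obtain ⟨i, rfl⟩ := hMk hjM
  have hn : N ≤ m (k i) := hj.le.trans (hm.id_le (k i))
  have c1 := hN (m (k i)) hn (hmS _)
  have c2 := Cv.biUnion (b := b) (n := m (k i)) (Finset.range i)
    (fun i' => {p | c * (1 / 2) ^ (i' + 3) ≤ |(R (x (k i'))).1 p|})
    (fun i' => δ * (1 / 2) ^ (i' + 2) * b.r (m (k i))) (by
      intro i' hi'
      refine hM₀ i' (k i') (m (k i)) ?_ (hmS _)
      have h1 : M₀ i' (k i') ≤ k (i' + 1) := (le_max_left _ _).trans (hΦ i')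
      exact h1.trans ((hk.monotone (Finset.mem_range.1 hi')).trans (hm.id_le _)))
  refine hnc (k i) ((c1.union c2).mono ?_ ?_)
  · intro p hp hcp
    by_contra hcon
    rw [Set.mem_union, not_or] at hcon
    obtain ⟨h1, h2⟩ := hcon
    have h1' : |(R (y M)).1 p| < c / 4 := not_le.1 h1
    have h2' : ∀ i' ∈ Finset.range i, |(R (x (k i'))).1 p| ≤ c * (1 / 2) ^ (i' + 3) := by
      intro i' hi'
      by_contra h3
      apply h2
      rw [Set.mem_iUnion₂]
      exact ⟨i', hi', (not_le.1 h3).le⟩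
    have h3 : HasSum (M.indicator (fun k => (R (x k)).1 p)) ((R (y M)).1 p) := by
      have h4 := (hsi M p).hasSum
      have h5 := hg p
      rw [hgdef, sub_eq_zero] at h5
      rw [← h5] at h4
      exact h4
    have h4 := term_le (z := fun k => (R (x k)).1 p) hk hMk hjM h3 (e := c / 8) (by
      intro F hF
      refine hN₀ (k i) p hp F fun l hl => ?_
      exact ((le_max_right _ _).trans (hΦ i)).trans (hF l hl))
    have h5 : ∑ i' ∈ Finset.range i, |(R (x (k i'))).1 p| ≤ c / 4 := by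
      refine (Finset.sum_le_sum h2').trans ?_
      have h6 : ∑ i' ∈ Finset.range i, c * (1 / 2 : ℝ) ^ (i' + 3) =
          c / 8 * ∑ i' ∈ Finset.range i, (1 / 2 : ℝ) ^ i' := by
        rw [Finset.mul_sum]
        refine Finset.sum_congr rfl fun i' _ => ?_
        rw [pow_add]
        ring
      rw [h6]
      have h7 := mul_le_mul_of_nonneg_left (sum_geometric_two_le i) (by positivity : 0 ≤ c / 8)
      linarith
    have hcp' : c ≤ |(R (x (k i))).1 p| := hcp
    linarith
  · have h6 : ∑ i' ∈ Finset.range i, δ * (1 / 2 : ℝ) ^ (i' + 2) * b.r (m (k i)) =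
        δ / 4 * b.r (m (k i)) * ∑ i' ∈ Finset.range i, (1 / 2 : ℝ) ^ i' := by
      rw [Finset.mul_sum]
      refine Finset.sum_congr rfl fun i' _ => ?_
      rw [pow_add]
      ring
    rw [h6]
    have h7 := mul_le_mul_of_nonneg_left (sum_geometric_two_le i)
      (by positivity : 0 ≤ δ / 4 * (b.r (m (k i)) : ℝ))
    linarith

end Pool.Agent.R464.GB
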