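import Pool.Agent.R464.GB.Defs

/-!
# GB-PPR: measures on the ideals `J_S`
-/

set_option autoImplicit false

open Filter Topology Set

namespace Pool.Agent.R464.GB

open Pool.Agent.R464.GI

namespace PprAux

theorem fa_empty {M : ℝ} {m : Set ℕ → ℝ} (hm : FA M m) : m ∅ = 0 := by
  have := hm.add ∅ ∅ (by simp)
  rw [Set.union_empty] at this
  linarith

theorem fa_fin {M : ℝ} {m : Set ℕ → ℝ} (hm : FA M m) (F : Finset ℕ) :
    m (F : Set ℕ) = ∑ q ∈ F, m {q} := by
  classical
  induction F using Finset.induction_on with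
  | empty => simpa using fa_empty hm
  | insert a s ha ih =>
    rw [Finset.coe_insert, Set.insert_eq, hm.add, ih, Finset.sum_insert ha]
    rw [Set.disjoint_singleton_left]
    simpa using ha

open Classical in
theorem mass {M : ℝ} {m : Set ℕ → ℝ} (hm : FA M m) (b : Blk) (N : ℕ) (A : Set ℕ)
    (hA : ∀ q ∈ A, ∃ n, n < N ∧ q ∈ b.D n) :
    m A = ∑ n ∈ Finset.range N, ∑ q ∈ b.D n, (if q ∈ A then m {q} else 0) := by
  have h1 : A = ((((Finset.range N).biUnion b.D).filter (fun q => q ∈ A) : Finset ℕ) : Set ℕ) := by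
    ext q
    simp only [Finset.coe_filter, Finset.mem_biUnion, Finset.mem_range, Set.mem_ofPred_eq]
    constructor
    · intro h
      obtain ⟨n, hn, hq⟩ := hA q h
      exact ⟨⟨n, hn, hq⟩, h⟩
    · exact fun h => h.2
  have h2 : m A = m ((((Finset.range N).biUnion b.D).filter (fun q => q ∈ A) : Finset ℕ) : Set ℕ) :=
    congrArg m h1
  rw [h2, fa_fin hm, Finset.sum_filter, Finset.sum_biUnion]
  intro n _ n' _ hne
  exact b.disj n n' hne

theorem halfLem (hC : CovStm) {M : ℝ} {m : Set ℕ → ℝ} (hm : FA M m) (b : Blk) (N : ℕ) (F : Set ℕ)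
    (hF : ∀ q ∈ F, ∃ n, n < N ∧ q ∈ b.D n) :
    ∃ B' ⊆ F, m F / 2 ≤ m B' ∧ ∀ n, Cv b n B' 1 := by
  classical
  have h1 := fun n => hC b n 1 (fun q => if q ∈ F then m {q} else 0) (fun q => by
    split_ifs
    · exact hm.nonneg _
    · exact le_rfl)
  choose J hJ1 hJ2 using h1
  refine ⟨{q | q ∈ F ∧ ∃ n, q ∈ b.D n ∧ ∃ j ∈ J n, b.inc j q = true}, fun q hq => hq.1, ?_, ?_⟩
  · set B' : Set ℕ := {q | q ∈ F ∧ ∃ n, q ∈ b.D n ∧ ∃ j ∈ J n, b.inc j q = true} with hB'
    have e1 : m F = m B' + m (F \ B') := by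
      rw [← hm.add _ _ Set.disjoint_sdiff_right, Set.union_sdiff_cancel (fun q hq => hq.1)]
    have e2 : m (F \ B') ≤ 1 / 2 * m F := by
      rw [mass hm b N F hF, mass hm b N (F \ B') (fun q hq => hF q hq.1), Finset.mul_sum]
      refine Finset.sum_le_sum fun n _ => ?_
      have e3 := hJ2 n
      rw [pow_one] at e3
      refine le_trans (le_of_eq ?_) e3
      rw [Finset.sum_filter]
      refine Finset.sum_congr rfl fun q hq => ?_
      by_cases hqF : q ∈ F
      · by_cases hqJ : ∀ i ∈ J n, b.inc i q = false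
        · have hqB : q ∈ F \ B' := by
            refine ⟨hqF, fun hqB => ?_⟩
            obtain ⟨_, n', hn', j, hj, hjq⟩ := hqB
            have hnn : n' = n := by
              by_contra hne
              exact Finset.disjoint_left.1 (b.disj n' n hne) hn' hq
            subst hnn
            rw [hqJ j hj] at hjq
            exact absurd hjq (by simp)
          rw [if_pos hqB, if_pos hqJ, if_pos hqF]
        · have hqB : q ∉ F \ B' := by
            intro hqB
            apply hqB.2
            push Not at hqJ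
            obtain ⟨i, hi, hiq⟩ := hqJ
            exact ⟨hqF, n, hq, i, hi, by simpa using hiq⟩
          rw [if_neg hqB, if_neg hqJ]
      · rw [if_neg (fun h => hqF h.1)]
        simp [hqF]
    linarith
  · intro n
    refine ⟨J n, by exact_mod_cast hJ1 n, ?_⟩
    rintro p hp ⟨_, n', hn', j, hj, hjp⟩
    have hnn : n' = n := by
      by_contra hne
      exact Finset.disjoint_left.1 (b.disj n' n hne) hn' hp
    subst hnn
    exact ⟨j, hj, hjp⟩

theorem r_ge (b : Blk) (n : ℕ) (hn : 1 ≤ n) : n + 1 ≤ b.r n := by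
  have h1 := b.growth1 n
  have h2 := b.growth2 n
  have h3 : 1 ≤ b.t n := by
    by_contra h
    have h4 : b.t n = 0 := by omega
    rw [h4, pow_zero] at h2
    have h5 : n + 1 ≤ (n + 1) * (1 + ∑ m ∈ Finset.range n, (b.D m).card) :=
      Nat.le_mul_of_pos_right _ (by omega)
    omega
  have h6 : n + 1 ≤ (n + 1) * b.t n := Nat.le_mul_of_pos_right _ h3
  omega

theorem finU {b : Blk} {S : Set ℕ} (hS : S.Infinite) {B : ℕ → Set ℕ} (hB : ∀ k, B k ∈ JS b S)
    (k : ℕ) : (⋃ j ∈ Finset.range k, B j) ∈ JS b S := by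
  induction k with
  | zero =>
    have : (⋃ j ∈ Finset.range 0, B j) = ∅ := by simp
    rw [this]
    exact (isIdeal_JS b S hS).fin _ Set.finite_empty
  | succ k ih =>
    rw [Finset.range_add_one, Finset.set_biUnion_insert]
    exact (isIdeal_JS b S hS).union _ (hB k) _ ih

end PprAux

open PprAux in
theorem pprStm (hC : CovStm) : PprStm := by
  classical
  intro b S hS M m hm B hB hdis ε hε hmB
  have hB' : ∀ k, B k ∈ JS b S := hB
  -- the thresholds
  have hN0 : ∀ k : ℕ, ∃ N, ∀ n, N ≤ n → n ∈ S →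
      Cv b n (⋃ j ∈ Finset.range (k + 1), B j) (1 / ((k : ℝ) + 1) * b.r n) := fun k =>
    finU hS hB' (k + 1) _ (by positivity)
  choose N0 hN0 using hN0
  let N : ℕ → ℕ := fun k => ∑ j ∈ Finset.range (k + 1), (N0 j + 1)
  have hNs : ∀ k, N (k + 1) = N k + (N0 (k + 1) + 1) := fun k => Finset.sum_range_succ _ _
  have hNm : StrictMono N := strictMono_nat_of_lt_succ fun k => by rw [hNs]; omega
  have hNk : ∀ k, k ≤ N k := fun _ => hNm.le_apply
  have hN0N : ∀ k, N0 k ≤ N k := by
    intro k
    cases k with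
    | zero =>
      have : N 0 = N0 0 + 1 := by simp [N]
      omega
    | succ k =>
      rw [hNs]
      omega
  set G : Set ℕ := {p | ∃ k, p ∈ B k ∧ ∀ n, n < N k → p ∉ b.D n} with hG
  have hGJ : G ∈ JS b S := by
    intro δ hδ
    obtain ⟨k₀, hk₀⟩ := exists_nat_one_div_lt hδ
    refine ⟨N k₀, fun n hn hnS => ?_⟩
    have hk1 : k₀ ≤ n := (hNk k₀).trans hn
    have hs1 : k₀ ≤ Nat.findGreatest (fun k => N k ≤ n) n := Nat.le_findGreatest hk1 hn
    have hs2 : N (Nat.findGreatest (fun k => N k ≤ n) n) ≤ n :=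
      Nat.findGreatest_spec (P := fun k => N k ≤ n) hk1 hn
    set ks := Nat.findGreatest (fun k => N k ≤ n) n with hks
    refine (hN0 ks n ((hN0N ks).trans hs2) hnS).mono ?_ ?_
    · rintro p hp ⟨k, hpk, hpn⟩
      have h1 : N k ≤ n := by
        by_contra h
        exact hpn n (by omega) hp
      have h2 : k ≤ ks := Nat.le_findGreatest ((hNk k).trans h1) h1
      exact Set.mem_iUnion₂.2 ⟨k, Finset.mem_range.2 (by omega), hpk⟩
    · refine mul_le_mul_of_nonneg_right ?_ (Nat.cast_nonneg _)
      refine le_trans ?_ hk₀.le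
      have : (k₀ : ℝ) ≤ ks := by exact_mod_cast hs1
      exact one_div_le_one_div_of_le (by positivity) (by linarith)
  by_cases hinf : ∃ᶠ k in atTop, ε / 4 ≤ m k (B k ∩ G)
  · obtain ⟨f, hf, hfP⟩ := Filter.extraction_of_frequently_atTop hinf
    refine ⟨f, fun k => B (f k) ∩ G, hf, fun k => Set.inter_subset_left, hfP, ?_⟩
    exact (isIdeal_JS b S hS).sub G hGJ _ (Set.iUnion_subset fun k => Set.inter_subset_right)
  · rw [Filter.not_frequently, Filter.eventually_atTop] at hinf
    obtain ⟨K, hK⟩ := hinf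
    let F : ℕ → Set ℕ := fun k => B k \ G
    have hmF : ∀ k, K ≤ k → 3 * ε / 4 ≤ m k (F k) := by
      intro k hk
      have h1 : m k (B k) = m k (B k ∩ G) + m k (B k \ G) := by
        rw [← (hm k).add _ _ (Set.disjoint_left.2 fun p hp hp' => hp'.2 hp.2),
          Set.inter_union_sdiff]
      have h2 := hmB k
      have h3 := not_le.1 (hK k hk)
      change 3 * ε / 4 ≤ m k (B k \ G)
      linarith
    have hF : ∀ k, ∀ q ∈ F k, ∃ n, n < N k ∧ q ∈ b.D n := by
      intro k q hq
      by_contra hcon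
      push Not at hcon
      exact hq.2 ⟨k, hq.1, hcon⟩
    have hfar : ∀ L : ℕ, ∃ k₁, ∀ k, k₁ ≤ k → ∀ n, n < L → ∀ q ∈ b.D n, q ∉ F k := by
      intro L
      have hfin : (⋃ q ∈ (((Finset.range L).biUnion b.D : Finset ℕ) : Set ℕ),
          {k | q ∈ F k}).Finite := by
        refine Set.Finite.biUnion (Finset.finite_toSet _) fun q _ => ?_
        refine Set.Subsingleton.finite ?_
        intro k hk l hl
        by_contra hkl
        exact Set.disjoint_left.1 (hdis k l hkl) hk.1 hl.1
      obtain ⟨k₁, hk₁⟩ := hfin.bddAbove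
      refine ⟨k₁ + 1, fun k hk n hn q hq hqF => ?_⟩
      have h1 : k ∈ ⋃ q ∈ (((Finset.range L).biUnion b.D : Finset ℕ) : Set ℕ), {k | q ∈ F k} := by
        refine Set.mem_biUnion (x := q) ?_ hqF
        rw [Finset.mem_coe, Finset.mem_biUnion]
        exact ⟨n, Finset.mem_range.2 hn, hq⟩
      have h2 := hk₁ h1
      omega
    choose κ hκ using hfar
    let e : ℕ → ℕ := fun i => Nat.rec K (fun _ k => max (k + 1) (κ (N k))) i
    have he1 : ∀ i, e (i + 1) = max (e i + 1) (κ (N (e i))) := fun i => rfl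
    have hes : StrictMono e := strictMono_nat_of_lt_succ fun i => by
      rw [he1]
      have := le_max_left (e i + 1) (κ (N (e i)))
      omega
    have heK : ∀ i, K ≤ e i := fun i => hes.monotone (Nat.zero_le i)
    have hef : ∀ i i', i < i' → ∀ n, n < N (e i) → ∀ q ∈ b.D n, q ∉ F (e i') := by
      intro i i' hii n hn q hq
      obtain ⟨j, rfl⟩ : ∃ j, i' = j + 1 := ⟨i' - 1, by omega⟩
      refine hκ (N (e j)) (e (j + 1)) (by rw [he1]; exact le_max_right _ _) n ?_ q hq
      exact lt_of_lt_of_le hn (hNm.monotone (hes.monotone (by omega)))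
    have hhalf := fun i => halfLem hC (hm (e i)) b (N (e i)) (F (e i)) (hF (e i))
    choose B' hB1 hB2 hB3 using hhalf
    refine ⟨e, B', hes, fun k => (hB1 k).trans Set.sdiff_subset, ?_, ?_⟩
    · intro k
      have h1 := hmF (e k) (heK k)
      have h2 := hB2 k
      linarith
    · intro δ hδ
      obtain ⟨n₀, hn₀⟩ := exists_nat_gt (1 / δ)
      refine ⟨max 1 n₀, fun n hn _ => ?_⟩
      have hn1 : 1 ≤ n := (le_max_left _ _).trans hn
      have hn2 : n₀ ≤ n := (le_max_right _ _).trans hn
      have hr : (1 : ℝ) ≤ δ * b.r n := by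
        have h1 := r_ge b n hn1
        have h2 : (n₀ : ℝ) ≤ b.r n := by exact_mod_cast (by omega : n₀ ≤ b.r n)
        rw [div_lt_iff₀ hδ] at hn₀
        nlinarith
      by_cases hex : ∃ i, ∃ q ∈ b.D n, q ∈ F (e i)
      · obtain ⟨i, q, hq, hqF⟩ := hex
        have hni : ∀ i' q', q' ∈ b.D n → q' ∈ F (e i') → n < N (e i') := by
          intro i' q' hq' hqF'
          obtain ⟨n', hn', hqn'⟩ := hF (e i') q' hqF'
          have : n' = n := by
            by_contra hne
            exact Finset.disjoint_left.1 (b.disj n' n hne) hqn' hq'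
          omega
        refine (hB3 i n).mono ?_ hr
        intro p hp hpU
        obtain ⟨i', hpi'⟩ := Set.mem_iUnion.1 hpU
        have hpF : p ∈ F (e i') := hB1 i' hpi'
        have hii : i' = i := by
          rcases lt_trichotomy i i' with h | h | h
          · exact absurd hpF (hef i i' h n (hni i q hq hqF) p hp)
          · exact h.symm
          · exact absurd hqF (hef i' i h n (hni i' p hp hpF) q hq)
        rw [← hii]
        exact hpi'
      · refine Cv.empty (by positivity) ?_
        intro p hp hpU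
        obtain ⟨i', hpi'⟩ := Set.mem_iUnion.1 hpU
        exact hex ⟨i', p, hp, hB1 i' hpi'⟩

end Pool.Agent.R464.GB
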